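import Mathlib

/-! Definitions for the approximation of homeomorphisms of the ball by globally
quasiconformal diffeomorphisms. -/

namespace Helper22QC

open Metric Set Filter Topology

/-- Euclidean space of dimension `n`. -/
abbrev E (n : ℕ) := EuclideanSpace ℝ (Fin n)

/-- The closed unit ball. -/
abbrev CB (n : ℕ) : Set (E n) := closedBall 0 1

/-- Homeomorphisms of the closed unit ball onto itself. -/
abbrev HB (n : ℕ) : Type := CB n ≃ₜ CB n

/-- `g` restricts to a `C^∞` diffeomorphism of the open unit ball onto itself which is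
`K`-quasiconformal: `‖Dg(x)‖^n ≤ K * det Dg(x)` and `det Dg(x) > 0` at every point of the
open unit ball. -/
structure QCDiffeo {n : ℕ} (K : ℝ) (g : E n → E n) : Prop where
  bij : BijOn g (ball 0 1) (ball 0 1)
  smooth : ContDiffOn ℝ (⊤ : ℕ∞) g (ball 0 1)
  smooth_inv : ContDiffOn ℝ (⊤ : ℕ∞) (Function.invFunOn g (ball 0 1)) (ball 0 1)
  det_pos : ∀ x ∈ ball (0 : E n) 1, 0 < (fderiv ℝ g x).det
  dist : ∀ x ∈ ball (0 : E n) 1, ‖fderiv ℝ g x‖ ^ n ≤ K * (fderiv ℝ g x).det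

/-- The homeomorphism `f` of the closed unit ball is, on the open unit ball, a uniform limit of
`K`-quasiconformal `C^∞` diffeomorphisms of the open unit ball. -/
def Approx {n : ℕ} (K : ℝ) (f : HB n) : Prop :=
  ∀ η : ℝ, 0 < η → ∃ g : E n → E n, QCDiffeo K g ∧
    ∀ x : CB n, (x : E n) ∈ ball (0 : E n) 1 → ‖g x - f x‖ ≤ η

/-- `δ`-monotone homeomorphism of the closed unit ball. -/
def Mono {n : ℕ} (δ : ℝ) (f : HB n) : Prop :=
  ∀ x y : CB n,
    δ * (‖(f x : E n) - f y‖ * ‖(x : E n) - y‖) ≤ inner ℝ ((f x : E n) - f y) ((x : E n) - y)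

/-- `f` maps the unit sphere into itself and the open unit ball into itself. -/
def KeepsSphere {n : ℕ} (f : HB n) : Prop :=
  ∀ x : CB n, ‖(f x : E n)‖ = 1 ↔ ‖(x : E n)‖ = 1

/-- `L` has positive determinant and `m |v| ≤ |L v| ≤ H m |v|` for all `v`, where `m > 0`. -/
def LinDist {n : ℕ} (H m : ℝ) (L : E n →L[ℝ] E n) : Prop :=
  0 < m ∧ 0 < L.det ∧ ‖L‖ ≤ H * m ∧ ∀ v, m * ‖v‖ ≤ ‖L v‖

/-- `|f y - f x - L (y - x)| ≤ e` whenever `|y - x| ≤ r`. -/
def CloseTo {n : ℕ} (f : HB n) (x : CB n) (L : E n →L[ℝ] E n) (r e : ℝ) : Prop :=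
  ∀ y : CB n, ‖(y : E n) - x‖ ≤ r → ‖(f y : E n) - f x - L ((y : E n) - x)‖ ≤ e

/-- `f` is `κ`-close at the scale `r` around `x` to a linear map of distortion at most `H`. -/
def AffineAt {n : ℕ} (κ H : ℝ) (f : HB n) (x : CB n) (r : ℝ) : Prop :=
  ∃ (L : E n →L[ℝ] E n) (m : ℝ), LinDist H m L ∧ CloseTo f x L r (κ * m * r)

/-- For arbitrarily small `ε` the map `f` is, around every point `x` of the open unit ball,
`κ`-close at the scale `ε (1 - |x|)` to a linear map of distortion at most `H`. -/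
def NearAffine {n : ℕ} (κ H : ℝ) (f : HB n) : Prop :=
  KeepsSphere f ∧ ∀ ε₀ : ℝ, 0 < ε₀ → ∃ ε : ℝ, 0 < ε ∧ ε < ε₀ ∧
    ∀ x : CB n, ‖(x : E n)‖ < 1 → AffineAt κ H f x (ε * (1 - ‖(x : E n)‖))

/-- The generators: monotone homeomorphisms and nearly affine homeomorphisms. -/
def Gen (n : ℕ) (κ : ℝ) : Set (HB n) :=
  {f | (∃ δ : ℝ, 0 < δ ∧ Mono δ f) ∨ ∃ H : ℝ, NearAffine κ H f}

end Helper22QC
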