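import Pool.Agent.Helper22_QC.Stmt

/-! Mollification at the scale `ε (1 - |x|²)`: basic facts. -/

namespace Helper22QC

open Metric Set Filter Topology MeasureTheory

variable {n : ℕ}

noncomputable def bump (n : ℕ) : ContDiffBump (0 : E n) := ⟨1/2, 1, by norm_num, by norm_num⟩

noncomputable def ph (n : ℕ) : E n → ℝ := (bump n).normed volume

lemma ph_nonneg (y : E n) : 0 ≤ ph n y := (bump n).nonneg_normed y

lemma ph_smooth : ContDiff ℝ (⊤ : ℕ∞) (ph n) := (bump n).contDiff_normed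

lemma ph_cont : Continuous (ph n) := (bump n).continuous_normed

lemma ph_int : ∫ y, ph n y = 1 := (bump n).integral_normed

lemma ph_integrable : Integrable (ph n) := (bump n).integrable_normed

lemma ph_support : Function.support (ph n) = ball (0 : E n) 1 := (bump n).support_normed_eq

lemma ph_zero {y : E n} (h : 1 ≤ ‖y‖) : ph n y = 0 := by
  by_contra hne
  have : y ∈ Function.support (ph n) := hne
  rw [ph_support] at this
  simp at this; linarith

lemma ph_pos {y : E n} (h : ‖y‖ < 1) : 0 < ph n y := by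
  have : y ∈ Function.support (ph n) := by rw [ph_support]; simpa using h
  exact lt_of_le_of_ne (ph_nonneg y) (Ne.symm this)

lemma ph_lower : ∃ c : ℝ, 0 < c ∧ ∀ y : E n, ‖y‖ ≤ 1/2 → c ≤ ph n y := by
  refine ⟨1 / ∫ x, bump n x, ?_, ?_⟩
  · exact one_div_pos.2 (bump n).integral_pos
  · intro y hy
    have h1 : bump n y = 1 := (bump n).one_of_mem_closedBall (by simpa [bump] using hy)
    unfold ph
    rw [ContDiffBump.normed_def, h1]

lemma int_of_cont {V : Type*} [NormedAddCommGroup V] [NormedSpace ℝ V] {h : E n → V}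
    (hc : ContinuousOn h (closedBall 0 1)) : Integrable (fun y => ph n y • h y) := by
  have h1 : IntegrableOn (fun y => ph n y • h y) (closedBall 0 1) :=
    (ph_cont.continuousOn.smul hc).integrableOn_compact (isCompact_closedBall _ _)
  refine (integrableOn_iff_integrable_of_support_subset ?_).1 h1
  intro y hy
  by_contra hn
  apply hy
  have : 1 ≤ ‖y‖ := by simp at hn; linarith
  simp [ph_zero this]

/-- hypotheses on the map -/
structure Base (F : E n → E n) : Prop where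
  cont : ContinuousOn F (closedBall 0 1)
  inj : InjOn F (closedBall 0 1)
  ball : ∀ x ∈ ball (0 : E n) 1, F x ∈ ball (0 : E n) 1
  sph : ∀ x, ‖x‖ = 1 → ‖F x‖ = 1
  out : ∀ x, 1 < ‖x‖ → F x = 0

/-- hypotheses on the map, with monotonicity -/
structure Data (δ : ℝ) (F : E n → E n) : Prop extends Base F where
  mono : ∀ x ∈ closedBall (0 : E n) 1, ∀ y ∈ closedBall (0 : E n) 1,
    δ * (‖F x - F y‖ * ‖x - y‖) ≤ inner ℝ (F x - F y) (x - y)

/-- mollification with parameter -/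
noncomputable def M (F : E n → E n) (ρ : ℝ) (x : E n) : E n := ∫ y, ph n y • F (x - ρ • y)

noncomputable def sc (ε : ℝ) (x : E n) : ℝ := ε * (1 - ‖x‖ ^ 2)

noncomputable def Me (F : E n → E n) (ε : ℝ) (x : E n) : E n := M F (sc ε x) x

lemma sc_nonneg {ε : ℝ} (hε : 0 ≤ ε) {x : E n} (hx : ‖x‖ ≤ 1) : 0 ≤ sc ε x := by
  unfold sc
  have := norm_nonneg x
  exact mul_nonneg hε (by nlinarith)

lemma sc_pos {ε : ℝ} (hε : 0 < ε) {x : E n} (hx : ‖x‖ < 1) : 0 < sc ε x := by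
  unfold sc
  have := norm_nonneg x
  exact mul_pos hε (by nlinarith)

lemma norm_add_sc {ε : ℝ} (hε : 0 ≤ ε) (hε' : ε ≤ 1/4) {x : E n} (hx : ‖x‖ ≤ 1) :
    ‖x‖ + sc ε x ≤ 1 := by
  unfold sc
  have h0 := norm_nonneg x
  have h1 : 0 ≤ 1 - ε * (1 + ‖x‖) := by nlinarith
  nlinarith [mul_nonneg (sub_nonneg.2 hx) h1]

lemma norm_add_sc_lt {ε : ℝ} (hε : 0 ≤ ε) (hε' : ε ≤ 1/4) {x : E n} (hx : ‖x‖ < 1) :
    ‖x‖ + sc ε x < 1 := by
  unfold sc
  have h0 := norm_nonneg x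
  have h1 : 0 < 1 - ε * (1 + ‖x‖) := by nlinarith
  nlinarith [mul_pos (sub_pos.2 hx) h1]

lemma mem_cb {ρ : ℝ} (hρ : 0 ≤ ρ) {x y : E n} (h : ‖x‖ + ρ ≤ 1) (hy : ‖y‖ ≤ 1) :
    x - ρ • y ∈ closedBall (0 : E n) 1 := by
  simp only [mem_closedBall, dist_zero_right]
  calc ‖x - ρ • y‖ ≤ ‖x‖ + ‖ρ • y‖ := norm_sub_le _ _
    _ = ‖x‖ + ρ * ‖y‖ := by rw [norm_smul, Real.norm_of_nonneg hρ]
    _ ≤ ‖x‖ + ρ * 1 := by gcongr
    _ ≤ 1 := by linarith

lemma mem_b {ρ : ℝ} (hρ : 0 ≤ ρ) {x y : E n} (h : ‖x‖ + ρ < 1) (hy : ‖y‖ ≤ 1) :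
    x - ρ • y ∈ ball (0 : E n) 1 := by
  simp only [mem_ball, dist_zero_right]
  calc ‖x - ρ • y‖ ≤ ‖x‖ + ‖ρ • y‖ := norm_sub_le _ _
    _ = ‖x‖ + ρ * ‖y‖ := by rw [norm_smul, Real.norm_of_nonneg hρ]
    _ ≤ ‖x‖ + ρ * 1 := by gcongr
    _ < 1 := by linarith

lemma cont_shift {F : E n → E n} (hF : Base F) {ρ : ℝ} (hρ : 0 ≤ ρ) {x : E n}
    (h : ‖x‖ + ρ ≤ 1) : ContinuousOn (fun y : E n => F (x - ρ • y)) (closedBall 0 1) := by
  refine hF.cont.comp (by fun_prop) ?_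
  intro y hy
  exact mem_cb hρ h (by simpa using hy)

lemma int_shift {F : E n → E n} (hF : Base F) {ρ : ℝ} (hρ : 0 ≤ ρ) {x : E n}
    (h : ‖x‖ + ρ ≤ 1) : Integrable (fun y : E n => ph n y • F (x - ρ • y)) :=
  int_of_cont (cont_shift hF hρ h)

/-- uniform closeness -/
lemma close {F : E n → E n} (hF : Base F) (η : ℝ) (hη : 0 < η) :
    ∃ ε₀ : ℝ, 0 < ε₀ ∧ ∀ ρ, 0 ≤ ρ → ρ < ε₀ → ∀ x : E n, ‖x‖ + ρ ≤ 1 → ‖M F ρ x - F x‖ ≤ η := by
  have huc : UniformContinuousOn F (closedBall 0 1) :=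
    (isCompact_closedBall _ _).uniformContinuousOn_of_continuous hF.cont
  rw [Metric.uniformContinuousOn_iff] at huc
  obtain ⟨d, hd, hdd⟩ := huc η hη
  refine ⟨d, hd, ?_⟩
  intro ρ hρ hρd x hx
  have hx1 : x ∈ closedBall (0 : E n) 1 := by simp; linarith
  have h1 : M F ρ x - F x = ∫ y, ph n y • (F (x - ρ • y) - F x) := by
    have : F x = ∫ y, ph n y • F x := by
      rw [integral_smul_const, ph_int, one_smul]
    unfold M
    rw [this, ← integral_sub (int_shift hF hρ hx)]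
    · simp_rw [smul_sub]
      rw [integral_smul_const, ph_int, one_smul]
    · exact ph_integrable.smul_const _
  rw [h1]
  calc ‖∫ y, ph n y • (F (x - ρ • y) - F x)‖ ≤ ∫ y, ph n y * η := by
        refine norm_integral_le_of_norm_le (ph_integrable.mul_const _) ?_
        refine Eventually.of_forall fun y => ?_
        rw [norm_smul, Real.norm_of_nonneg (ph_nonneg y)]
        by_cases hy : ‖y‖ ≤ 1
        · refine mul_le_mul_of_nonneg_left ?_ (ph_nonneg y)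
          have := hdd _ (mem_cb hρ hx hy) _ hx1 ?_
          · rw [dist_eq_norm] at this; exact this.le
          · rw [dist_eq_norm]
            have e : x - ρ • y - x = -(ρ • y) := by abel
            rw [e, norm_neg, norm_smul, Real.norm_of_nonneg hρ]
            have := norm_nonneg y
            nlinarith
        · rw [ph_zero (by linarith)]; simp
    _ = η := by rw [integral_mul_const, ph_int, one_mul]

lemma sc_lip {ε : ℝ} (hε : 0 ≤ ε) {x x' : E n} (hx : ‖x‖ ≤ 1) (hx' : ‖x'‖ ≤ 1) :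
    |sc ε x' - sc ε x| ≤ 2 * ε * ‖x' - x‖ := by
  unfold sc
  have e : ε * (1 - ‖x'‖ ^ 2) - ε * (1 - ‖x‖ ^ 2) = ε * ((‖x‖ - ‖x'‖) * (‖x‖ + ‖x'‖)) := by ring
  rw [e, abs_mul, abs_of_nonneg hε, abs_mul]
  have h1 : |‖x‖ - ‖x'‖| ≤ ‖x' - x‖ := by
    rw [norm_sub_rev]; exact abs_norm_sub_norm_le x x'
  have h2 : |‖x‖ + ‖x'‖| ≤ 2 := by
    rw [abs_of_nonneg (by positivity)]; linarith
  calc ε * (|‖x‖ - ‖x'‖| * |‖x‖ + ‖x'‖|) ≤ ε * (‖x' - x‖ * 2) := by gcongr
    _ = 2 * ε * ‖x' - x‖ := by ring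

/-- pointwise monotonicity of the shifted differences -/
lemma mono_pt {δ : ℝ} {F : E n → E n} (hF : Data δ F) (hδ : 0 < δ) (hδ1 : δ ≤ 1) {ε : ℝ}
    (hε : 0 ≤ ε) (hε' : ε ≤ δ / 8) {x x' y : E n} (hx : ‖x‖ ≤ 1) (hx' : ‖x'‖ ≤ 1)
    (hy : ‖y‖ ≤ 1) :
    δ / 2 * (‖F (x' - sc ε x' • y) - F (x - sc ε x • y)‖ * ‖x' - x‖) ≤
      inner ℝ (F (x' - sc ε x' • y) - F (x - sc ε x • y)) (x' - x) := by
  set u := x - sc ε x • y with hu
  set u' := x' - sc ε x' • y with hu'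
  set D := F u' - F u with hD
  have hε4 : ε ≤ 1/4 := by linarith
  have mu : u ∈ closedBall (0 : E n) 1 := mem_cb (sc_nonneg hε hx) (norm_add_sc hε hε4 hx) hy
  have mu' : u' ∈ closedBall (0 : E n) 1 := mem_cb (sc_nonneg hε hx') (norm_add_sc hε hε4 hx') hy
  have h1 := hF.mono u' mu' u mu
  have e1 : x' - x = (u' - u) + (sc ε x' - sc ε x) • y := by
    rw [hu, hu', sub_smul]; abel
  have h2 : ‖(sc ε x' - sc ε x) • y‖ ≤ 2 * ε * ‖x' - x‖ := by
    rw [norm_smul, Real.norm_eq_abs]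
    have := sc_lip hε hx hx'
    calc |sc ε x' - sc ε x| * ‖y‖ ≤ (2 * ε * ‖x' - x‖) * 1 := by gcongr
      _ = _ := by ring
  have h3 : (1 - 2 * ε) * ‖x' - x‖ ≤ ‖u' - u‖ := by
    have : ‖x' - x‖ ≤ ‖u' - u‖ + ‖(sc ε x' - sc ε x) • y‖ := by
      conv_lhs => rw [e1]
      exact norm_add_le _ _
    linarith
  have h4 : inner ℝ D (x' - x) = inner ℝ D (u' - u) + inner ℝ D ((sc ε x' - sc ε x) • y) := by
    conv_lhs => rw [e1]
    rw [inner_add_right]
  have h5 : -(‖D‖ * (2 * ε * ‖x' - x‖)) ≤ inner ℝ D ((sc ε x' - sc ε x) • y) := by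
    have := abs_real_inner_le_norm D ((sc ε x' - sc ε x) • y)
    have h6 : ‖D‖ * ‖(sc ε x' - sc ε x) • y‖ ≤ ‖D‖ * (2 * ε * ‖x' - x‖) := by gcongr
    have := neg_le_of_abs_le this
    linarith
  have h7 : δ * (‖D‖ * ((1 - 2 * ε) * ‖x' - x‖)) ≤ inner ℝ D (u' - u) := by
    refine le_trans ?_ h1
    gcongr
  rw [h4]
  have h8 : 0 ≤ ‖D‖ * ‖x' - x‖ := by positivity
  have h9 : δ / 2 ≤ δ * (1 - 2 * ε) - 2 * ε := by nlinarith
  calc δ / 2 * (‖D‖ * ‖x' - x‖) ≤ (δ * (1 - 2 * ε) - 2 * ε) * (‖D‖ * ‖x' - x‖) := by gcongr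
    _ = δ * (‖D‖ * ((1 - 2 * ε) * ‖x' - x‖)) + -(‖D‖ * (2 * ε * ‖x' - x‖)) := by ring
    _ ≤ _ := by linarith

lemma Me_sub {F : E n → E n} (hF : Base F) {ε : ℝ} (hε : 0 ≤ ε) (hε' : ε ≤ 1/4)
    {x x' : E n} (hx : ‖x‖ ≤ 1) (hx' : ‖x'‖ ≤ 1) :
    Me F ε x' - Me F ε x = ∫ y, ph n y • (F (x' - sc ε x' • y) - F (x - sc ε x • y)) := by
  unfold Me M
  rw [← integral_sub (int_shift hF (sc_nonneg hε hx') (norm_add_sc hε hε' hx'))
    (int_shift hF (sc_nonneg hε hx) (norm_add_sc hε hε' hx))]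
  simp_rw [smul_sub]

lemma cont_diff {F : E n → E n} (hF : Base F) {ε : ℝ} (hε : 0 ≤ ε) (hε' : ε ≤ 1/4)
    {x x' : E n} (hx : ‖x‖ ≤ 1) (hx' : ‖x'‖ ≤ 1) :
    ContinuousOn (fun y => F (x' - sc ε x' • y) - F (x - sc ε x • y)) (closedBall 0 1) :=
  (cont_shift hF (sc_nonneg hε hx') (norm_add_sc hε hε' hx')).sub
    (cont_shift hF (sc_nonneg hε hx) (norm_add_sc hε hε' hx))

/-- the strong form of monotonicity: controls the integral of the norms. -/
lemma mono_int {δ : ℝ} {F : E n → E n} (hF : Data δ F) (hδ : 0 < δ) (hδ1 : δ ≤ 1) {ε : ℝ}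
    (hε : 0 ≤ ε) (hε' : ε ≤ δ / 8) {x x' : E n} (hx : ‖x‖ ≤ 1) (hx' : ‖x'‖ ≤ 1) :
    δ / 2 * ((∫ y, ph n y • ‖F (x' - sc ε x' • y) - F (x - sc ε x • y)‖) * ‖x' - x‖) ≤
      inner ℝ (Me F ε x' - Me F ε x) (x' - x) := by
  have hε4 : ε ≤ 1/4 := by linarith
  rw [Me_sub hF.toBase hε hε4 hx hx']
  have hI := int_of_cont (cont_diff hF.toBase hε hε4 hx hx')
  have hIn := int_of_cont (cont_diff hF.toBase hε hε4 hx hx').norm
  have e1 : inner ℝ (∫ y, ph n y • (F (x' - sc ε x' • y) - F (x - sc ε x • y))) (x' - x) =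
      ∫ y, ph n y • inner ℝ (F (x' - sc ε x' • y) - F (x - sc ε x • y)) (x' - x) := by
    rw [real_inner_comm, ← integral_inner hI]
    refine integral_congr_ae (Eventually.of_forall fun y => ?_)
    simp only [real_inner_smul_right, smul_eq_mul]
    rw [real_inner_comm]
  rw [e1]
  have e2 : δ / 2 * ((∫ y, ph n y • ‖F (x' - sc ε x' • y) - F (x - sc ε x • y)‖) * ‖x' - x‖) =
      ∫ y, (ph n y • ‖F (x' - sc ε x' • y) - F (x - sc ε x • y)‖) * (δ / 2 * ‖x' - x‖) := by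
    rw [integral_mul_const]; ring
  rw [e2]
  refine integral_mono (hIn.mul_const _) ?_ ?_
  · have : ContinuousOn (fun y => (inner ℝ (F (x' - sc ε x' • y) - F (x - sc ε x • y)) (x' - x) : ℝ))
        (closedBall 0 1) := (cont_diff hF.toBase hε hε4 hx hx').inner continuousOn_const
    exact int_of_cont this
  · intro y
    simp only [smul_eq_mul]
    by_cases hy : ‖y‖ ≤ 1
    · have := mono_pt hF hδ hδ1 hε hε' hx hx' hy
      have h0 := ph_nonneg y
      nlinarith [mul_le_mul_of_nonneg_left this h0]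
    · rw [ph_zero (by linarith)]; simp

lemma norm_le_int {F : E n → E n} (hF : Base F) {ε : ℝ}
    (hε : 0 ≤ ε) (hε' : ε ≤ 1/4) {x x' : E n} (hx : ‖x‖ ≤ 1) (hx' : ‖x'‖ ≤ 1) :
    ‖Me F ε x' - Me F ε x‖ ≤ ∫ y, ph n y • ‖F (x' - sc ε x' • y) - F (x - sc ε x • y)‖ := by
  rw [Me_sub hF hε hε' hx hx']
  refine (norm_integral_le_integral_norm _).trans (le_of_eq ?_)
  refine integral_congr_ae (Eventually.of_forall fun y => ?_)
  simp only [norm_smul, Real.norm_of_nonneg (ph_nonneg y), smul_eq_mul]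

/-- monotonicity of the mollified map -/
lemma mono_Me {δ : ℝ} {F : E n → E n} (hF : Data δ F) (hδ : 0 < δ) (hδ1 : δ ≤ 1) {ε : ℝ}
    (hε : 0 ≤ ε) (hε' : ε ≤ δ / 8) {x x' : E n} (hx : ‖x‖ ≤ 1) (hx' : ‖x'‖ ≤ 1) :
    δ / 2 * (‖Me F ε x' - Me F ε x‖ * ‖x' - x‖) ≤ inner ℝ (Me F ε x' - Me F ε x) (x' - x) := by
  refine le_trans ?_ (mono_int hF hδ hδ1 hε hε' hx hx')
  have := norm_le_int hF.toBase hε (by linarith) hx hx'
  gcongr

/-- injectivity -/
lemma inj_Me {δ : ℝ} {F : E n → E n} (hF : Data δ F) (hδ : 0 < δ) (hδ1 : δ ≤ 1) {ε : ℝ}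
    (hε : 0 ≤ ε) (hε' : ε ≤ δ / 8) {x x' : E n} (hx : ‖x‖ ≤ 1) (hx' : ‖x'‖ ≤ 1)
    (h : Me F ε x' = Me F ε x) : x' = x := by
  by_contra hne
  have hε4 : ε ≤ 1/4 := by linarith
  have hpos : 0 < ‖x' - x‖ := norm_pos_iff.2 (sub_ne_zero.2 hne)
  have h1 := mono_int hF hδ hδ1 hε hε' hx hx'
  rw [h, sub_self, inner_zero_left] at h1
  have hIn := int_of_cont (cont_diff hF.toBase hε hε4 hx hx').norm
  have h2 : 0 < ∫ y, ph n y • ‖F (x' - sc ε x' • y) - F (x - sc ε x • y)‖ := by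
    rw [integral_pos_iff_support_of_nonneg _ hIn]
    · have hsub : ball (0 : E n) 1 ⊆ Function.support
          (fun y => ph n y • ‖F (x' - sc ε x' • y) - F (x - sc ε x • y)‖) := by
        intro y hy
        have hy1 : ‖y‖ < 1 := by simpa using hy
        have p1 := ph_pos hy1
        have p2 : F (x' - sc ε x' • y) ≠ F (x - sc ε x • y) := by
          intro he
          have := hF.inj (mem_cb (sc_nonneg hε hx') (norm_add_sc hε hε4 hx') hy1.le)
            (mem_cb (sc_nonneg hε hx) (norm_add_sc hε hε4 hx) hy1.le) he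
          have e1 : x' - x = (sc ε x' - sc ε x) • y := by
            rw [sub_smul]
            have h3 : x' - sc ε x' • y - (x - sc ε x • y) = 0 := sub_eq_zero.2 this
            have h4 : x' - x = sc ε x' • y - sc ε x • y + (x' - sc ε x' • y - (x - sc ε x • y)) := by
              abel
            rw [h4, h3, add_zero]
          have h5 : ‖x' - x‖ ≤ 2 * ε * ‖x' - x‖ := by
            conv_lhs => rw [e1, norm_smul, Real.norm_eq_abs]
            have := sc_lip hε hx hx'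
            calc |sc ε x' - sc ε x| * ‖y‖ ≤ (2 * ε * ‖x' - x‖) * 1 := by gcongr
              _ = _ := by ring
          nlinarith
        have p3 : 0 < ‖F (x' - sc ε x' • y) - F (x - sc ε x • y)‖ :=
          norm_pos_iff.2 (sub_ne_zero.2 p2)
        simp only [Function.mem_support, smul_eq_mul]
        positivity
      refine lt_of_lt_of_le ?_ (measure_mono hsub)
      exact measure_ball_pos _ _ one_pos
    · intro y
      simp only [Pi.zero_apply, smul_eq_mul]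
      exact mul_nonneg (ph_nonneg y) (norm_nonneg _)
  have : 0 < δ / 2 * ((∫ y, ph n y • ‖F (x' - sc ε x' • y) - F (x - sc ε x • y)‖) * ‖x' - x‖) := by
    positivity
  linarith

end Helper22QC
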