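import Pool.Agent.Helper22_QC.Mol1

/-! Mollification: smoothness and non-degeneracy of the derivative. -/

namespace Helper22QC

open Metric Set Filter Topology MeasureTheory Convolution

variable {n : ℕ}

noncomputable def ker (n : ℕ) (ρ : ℝ) (s : E n) : ℝ := (ρ ^ n)⁻¹ * ph n (ρ⁻¹ • s)

noncomputable def LL (n : ℕ) : E n →L[ℝ] ℝ →L[ℝ] E n := (ContinuousLinearMap.lsmul ℝ ℝ).flip

lemma F_integrable {F : E n → E n} (hF : Base F) : Integrable F := by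
  have h1 : IntegrableOn F (closedBall 0 1) :=
    hF.cont.integrableOn_compact (isCompact_closedBall _ _)
  refine (integrableOn_iff_integrable_of_support_subset ?_).1 h1
  intro y hy
  by_contra hn
  apply hy
  have : 1 < ‖y‖ := by simpa using hn
  exact hF.out y this

lemma M_eq_conv {F : E n → E n} {ρ : ℝ} (hρ : 0 < ρ) (c : E n) :
    M F ρ c = (F ⋆[LL n, volume] ker n ρ) c := by
  have h1 : (F ⋆[LL n, volume] ker n ρ) c = ∫ t, ker n ρ (c - t) • F t := by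
    unfold convolution
    rfl
  rw [h1]
  have h2 : (∫ t, ker n ρ (c - t) • F t) = ∫ s, ker n ρ s • F (c - s) := by
    have := integral_sub_left_eq_self (fun s => ker n ρ s • F (c - s)) (volume : Measure (E n)) c
    rw [← this]
    simp
  rw [h2]
  have h3 := Measure.integral_comp_inv_smul_of_nonneg (volume : Measure (E n))
    (fun y : E n => ph n y • F (c - ρ • y)) hρ.le
  have h4 : (fun s : E n => ker n ρ s • F (c - s)) =
      fun s => (ρ ^ n)⁻¹ • (ph n (ρ⁻¹ • s) • F (c - ρ • (ρ⁻¹ • s))) := by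
    funext s
    rw [smul_smul ρ, mul_inv_cancel₀ hρ.ne', one_smul, smul_smul]
    rfl
  rw [h4, integral_smul, h3]
  have h5 : Module.finrank ℝ (E n) = n := by simp
  rw [h5, smul_smul, inv_mul_cancel₀ (pow_pos hρ n).ne', one_smul]
  rfl

lemma ker_smooth : ContDiffOn ℝ (⊤ : ℕ∞) (fun p : ℝ × E n => ker n p.1 p.2) (Ioo 0 1 ×ˢ univ) := by
  unfold ker
  have h1 : ContDiffOn ℝ (⊤ : ℕ∞) (fun p : ℝ × E n => (p.1 ^ n)⁻¹) (Ioo 0 1 ×ˢ univ) := by
    refine ContDiffOn.inv (by fun_prop) ?_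
    rintro ⟨a, b⟩ ⟨ha, _⟩
    exact (pow_pos ha.1 n).ne'
  have h2 : ContDiffOn ℝ (⊤ : ℕ∞) (fun p : ℝ × E n => ph n (p.1⁻¹ • p.2)) (Ioo 0 1 ×ˢ univ) := by
    refine ph_smooth.comp_contDiffOn ?_
    have h3 : ContDiffOn ℝ (⊤ : ℕ∞) (fun p : ℝ × E n => (p.1)⁻¹) (Ioo 0 1 ×ˢ univ) := by
      refine ContDiffOn.inv (by fun_prop) ?_
      rintro ⟨a, b⟩ ⟨ha, _⟩
      exact ha.1.ne'
    exact h3.smul (by fun_prop)
  exact h1.mul h2

lemma conv_smooth {F : E n → E n} (hF : Base F) :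
    ContDiffOn ℝ (⊤ : ℕ∞) (fun q : ℝ × E n => (F ⋆[LL n, volume] ker n q.1) q.2)
      (Ioo 0 1 ×ˢ univ) := by
  refine contDiffOn_convolution_right_with_param (LL n) isOpen_Ioo (isCompact_closedBall (0 : E n) 1)
    ?_ (F_integrable hF).locallyIntegrable ?_
  · intro p x hp hx
    have hx1 : 1 < ‖x‖ := by simpa using hx
    unfold ker
    rw [ph_zero, mul_zero]
    rw [norm_smul, norm_inv, Real.norm_of_nonneg hp.1.le]
    rw [inv_mul_eq_div, le_div_iff₀ hp.1]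
    linarith [hp.2]
  · exact ker_smooth

lemma sc_smooth (ε : ℝ) : ContDiff ℝ (⊤ : ℕ∞) (sc ε : E n → ℝ) := by
  unfold sc
  have : ContDiff ℝ (⊤ : ℕ∞) (fun x : E n => ‖x‖ ^ 2) := contDiff_norm_sq ℝ
  fun_prop

lemma sc_mem {ε : ℝ} (hε : 0 < ε) (hε' : ε ≤ 1/4) {x : E n} (hx : ‖x‖ < 1) :
    sc ε x ∈ Ioo (0 : ℝ) 1 := by
  refine ⟨sc_pos hε hx, ?_⟩
  unfold sc
  have := sq_nonneg ‖x‖
  nlinarith

lemma Me_smooth {F : E n → E n} (hF : Base F) {ε : ℝ} (hε : 0 < ε) (hε' : ε ≤ 1/4) :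
    ContDiffOn ℝ (⊤ : ℕ∞) (Me F ε) (ball 0 1) := by
  have h1 := conv_smooth hF
  have h2 : ContDiffOn ℝ (⊤ : ℕ∞) (fun x : E n => (sc ε x, x)) (ball 0 1) :=
    ((sc_smooth ε).prodMk contDiff_id).contDiffOn
  have h3 := h1.comp h2 (fun x hx => ⟨sc_mem hε hε' (by simpa using hx), mem_univ _⟩)
  refine h3.congr ?_
  intro x hx
  have hx' : ‖x‖ < 1 := by simpa using hx
  exact M_eq_conv (sc_pos hε hx') x

lemma hasFDerivAt_sc (ε : ℝ) (x h : E n) (hxh : inner ℝ x h = 0) :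
    fderiv ℝ (sc ε : E n → ℝ) x h = 0 := by
  have h1 : HasFDerivAt (fun x : E n => ‖x‖ ^ 2) (2 • (innerSL ℝ x)) x := by
    exact (hasStrictFDerivAt_norm_sq x).hasFDerivAt
  have h2 := ((hasFDerivAt_const (1 : ℝ) x).sub h1).const_mul ε
  have h3 : HasFDerivAt (sc ε : E n → ℝ) _ x := h2
  rw [h3.fderiv]
  simp [hxh]

/-- the derivative of the mollified map in a direction orthogonal to `x` -/
lemma deriv_orth {F : E n → E n} (hF : Base F) {ε : ℝ} (hε : 0 < ε) (hε' : ε ≤ 1/4)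
    {x h : E n} (hx : ‖x‖ < 1) (hxh : inner ℝ x h = 0) :
    HasDerivAt (fun t : ℝ => M F (sc ε x) (x + t • h)) (fderiv ℝ (Me F ε) x h) 0 := by
  set Φ : ℝ × E n → E n := fun q => (F ⋆[LL n, volume] ker n q.1) q.2 with hΦ
  have hmem : (sc ε x, x) ∈ (Ioo (0 : ℝ) 1 ×ˢ (univ : Set (E n))) :=
    ⟨sc_mem hε hε' hx, mem_univ _⟩
  have hopen : IsOpen (Ioo (0 : ℝ) 1 ×ˢ (univ : Set (E n))) := isOpen_Ioo.prod isOpen_univ
  have hd : DifferentiableAt ℝ Φ (sc ε x, x) :=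
    ((conv_smooth hF).contDiffAt (hopen.mem_nhds hmem)).differentiableAt (by simp)
  have hd' := hd.hasFDerivAt
  -- derivative of Me
  have hs : HasFDerivAt (sc ε : E n → ℝ) (fderiv ℝ (sc ε) x) x :=
    ((sc_smooth ε).differentiable (by simp) x).hasFDerivAt
  have hp : HasFDerivAt (fun z : E n => (sc ε z, z)) ((fderiv ℝ (sc ε) x).prod (.id ℝ (E n))) x :=
    hs.prodMk (hasFDerivAt_id x)
  have hc : HasFDerivAt (Φ ∘ fun z : E n => (sc ε z, z))
      ((fderiv ℝ Φ (sc ε x, x)).comp ((fderiv ℝ (sc ε) x).prod (.id ℝ (E n)))) x :=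
    HasFDerivAt.comp x hd' hp
  have heq : Me F ε =ᶠ[𝓝 x] (Φ ∘ fun z : E n => (sc ε z, z)) := by
    have : ball (0 : E n) 1 ∈ 𝓝 x := isOpen_ball.mem_nhds (by simpa using hx)
    filter_upwards [this] with z hz
    have hz' : ‖z‖ < 1 := by simpa using hz
    exact M_eq_conv (sc_pos hε hz') z
  have hM : HasFDerivAt (Me F ε)
      ((fderiv ℝ Φ (sc ε x, x)).comp ((fderiv ℝ (sc ε) x).prod (.id ℝ (E n)))) x :=
    hc.congr_of_eventuallyEq heq
  rw [hM.fderiv]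
  have e1 : ((fderiv ℝ Φ (sc ε x, x)).comp ((fderiv ℝ (sc ε) x).prod (.id ℝ (E n)))) h =
      fderiv ℝ Φ (sc ε x, x) (0, h) := by
    simp [hasFDerivAt_sc ε x h hxh]
  rw [e1]
  have hl : HasDerivAt (fun t : ℝ => ((sc ε x, x + t • h) : ℝ × E n)) ((0 : ℝ), h) 0 := by
    refine (hasDerivAt_const (0 : ℝ) (sc ε x)).prodMk ?_
    have : HasDerivAt (fun t : ℝ => t • h) ((1 : ℝ) • h) 0 := (hasDerivAt_id (0 : ℝ)).smul_const h
    rw [one_smul] at this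
    simpa using this.const_add x
  have hd'' : HasFDerivAt Φ (fderiv ℝ Φ (sc ε x, x)) ((fun t : ℝ => ((sc ε x, x + t • h) : ℝ × E n)) 0) := by
    simpa using hd'
  have h6 := hd''.comp_hasDerivAt (0 : ℝ) hl
  refine h6.congr_of_eventuallyEq (Eventually.of_forall fun t => ?_)
  exact M_eq_conv (sc_pos hε hx) _

/-- the derivative is monotone -/
lemma deriv_mono {δ : ℝ} {F : E n → E n} (hF : Data δ F) (hδ : 0 < δ) (hδ1 : δ ≤ 1) {ε : ℝ}
    (hε : 0 < ε) (hε' : ε ≤ δ / 8) {x : E n} (hx : ‖x‖ < 1) (h : E n) :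
    δ / 2 * (‖fderiv ℝ (Me F ε) x h‖ * ‖h‖) ≤ inner ℝ (fderiv ℝ (Me F ε) x h) h := by
  have hε4 : ε ≤ 1/4 := by linarith
  have hxb : ball (0 : E n) 1 ∈ 𝓝 x := isOpen_ball.mem_nhds (by simpa using hx)
  have hd : DifferentiableAt ℝ (Me F ε) x :=
    ((Me_smooth hF.toBase hε hε4).contDiffAt hxb).differentiableAt (by simp)
  have hl := (hd.hasFDerivAt.hasLineDerivAt h)
  have hl' : Tendsto (fun t : ℝ => t⁻¹ • (Me F ε (x + t • h) - Me F ε x)) (𝓝[>] 0)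
      (𝓝 (fderiv ℝ (Me F ε) x h)) := hl.tendsto_slope_zero_right
  have ev : ∀ᶠ t : ℝ in 𝓝[>] 0, ‖x + t • h‖ ≤ 1 ∧ 0 < t := by
    refine Filter.Eventually.and ?_ self_mem_nhdsWithin
    have hc : ContinuousAt (fun t : ℝ => x + t • h) 0 := by fun_prop
    have : ∀ᶠ t : ℝ in 𝓝 0, x + t • h ∈ ball (0 : E n) 1 := by
      apply hc.preimage_mem_nhds
      simpa only [zero_smul, add_zero] using hxb
    filter_upwards [nhdsWithin_le_nhds this] with t ht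
    have : ‖x + t • h‖ < 1 := by simpa using ht
    exact this.le
  refine le_of_tendsto_of_tendsto (f := fun t : ℝ => δ / 2 * (‖t⁻¹ • (Me F ε (x + t • h) - Me F ε x)‖ * ‖h‖))
    (g := fun t : ℝ => inner ℝ (t⁻¹ • (Me F ε (x + t • h) - Me F ε x)) h) (b := 𝓝[>] (0:ℝ)) ?_ ?_ ?_
  · exact (hl'.norm.mul_const _).const_mul _
  · exact hl'.inner tendsto_const_nhds
  · filter_upwards [ev] with t ht
    have h1 := mono_Me hF hδ hδ1 hε.le hε' hx.le ht.1
    have e1 : x + t • h - x = t • h := by abel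
    rw [e1, norm_smul, Real.norm_of_nonneg ht.2.le, real_inner_smul_right] at h1
    rw [norm_smul, Real.norm_of_nonneg (inv_nonneg.2 ht.2.le), real_inner_smul_left]
    have ht2 := ht.2
    have h2 : t⁻¹ * t⁻¹ * (δ / 2 * (‖Me F ε (x + t • h) - Me F ε x‖ * (t * ‖h‖))) ≤
        t⁻¹ * t⁻¹ * (t * inner ℝ (Me F ε (x + t • h) - Me F ε x) h) := by gcongr
    have e2 : t⁻¹ * t⁻¹ * (δ / 2 * (‖Me F ε (x + t • h) - Me F ε x‖ * (t * ‖h‖))) =
        δ / 2 * (t⁻¹ * ‖Me F ε (x + t • h) - Me F ε x‖ * ‖h‖) := by field_simp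
    have e3 : t⁻¹ * t⁻¹ * (t * inner ℝ (Me F ε (x + t • h) - Me F ε x) h) =
        t⁻¹ * inner ℝ (Me F ε (x + t • h) - Me F ε x) h := by field_simp
    rw [e2, e3] at h2
    exact h2

end Helper22QC
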