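import Pool.Agent.Helper22_QC.Mol2

/-! Mollification: non-degeneracy of the derivative. -/

namespace Helper22QC

open Metric Set Filter Topology MeasureTheory

variable {n : ℕ}

/-- monotone increments along a direction -/
lemma incr_nonneg {δ : ℝ} {F : E n → E n} (hF : Data δ F) (hδ : 0 < δ) {u h : E n} {t : ℝ}
    (ht : 0 < t) (hu : ‖u‖ ≤ 1) (hu' : ‖u + t • h‖ ≤ 1) :
    0 ≤ inner ℝ (F (u + t • h) - F u) h := by
  have h1 := hF.mono (u + t • h) (by simpa using hu') u (by simpa using hu)
  have e1 : u + t • h - u = t • h := by abel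
  rw [e1, real_inner_smul_right] at h1
  have h2 : 0 ≤ t * inner ℝ (F (u + t • h) - F u) h := le_trans (by positivity) h1
  exact nonneg_of_mul_nonneg_right h2 ht

lemma incr_pos {δ : ℝ} {F : E n → E n} (hF : Data δ F) (hδ : 0 < δ) {u h : E n} {t : ℝ}
    (ht : 0 < t) (hh : h ≠ 0) (hu : ‖u‖ ≤ 1) (hu' : ‖u + t • h‖ ≤ 1) :
    0 < inner ℝ (F (u + t • h) - F u) h := by
  have h1 := hF.mono (u + t • h) (by simpa using hu') u (by simpa using hu)
  have e1 : u + t • h - u = t • h := by abel
  rw [e1, real_inner_smul_right] at h1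
  have hne : F (u + t • h) ≠ F u := by
    intro he
    have := hF.inj (by simpa using hu') (by simpa using hu) he
    have h3 : t • h = 0 := by simpa using this
    rcases smul_eq_zero.1 h3 with h4 | h4
    · exact ht.ne' h4
    · exact hh h4
  have p1 : 0 < ‖F (u + t • h) - F u‖ := norm_pos_iff.2 (sub_ne_zero.2 hne)
  have p2 : 0 < ‖t • h‖ := norm_pos_iff.2 (smul_ne_zero ht.ne' hh)
  have h2 : 0 < t * inner ℝ (F (u + t • h) - F u) h := lt_of_lt_of_le (by positivity) h1
  exact (mul_pos_iff_of_pos_left ht).1 h2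

theorem nondeg {δ : ℝ} {F : E n → E n} (hF : Data δ F) (hδ : 0 < δ) {ε : ℝ}
    (hε : 0 < ε) (hε' : ε ≤ 1 / 4) {x h : E n} (hx : ‖x‖ < 1) (hxh : inner ℝ x h = 0)
    (hh : h ≠ 0) : fderiv ℝ (Me F ε) x h ≠ 0 := by
  set ρ := sc ε x with hρdef
  have hρ : 0 < ρ := sc_pos hε hx
  have hxρ : ‖x‖ + ρ < 1 := norm_add_sc_lt hε.le hε' hx
  have hhn : 0 < ‖h‖ := norm_pos_iff.2 hh
  obtain ⟨c, hc, hcl⟩ := ph_lower (n := n)
  -- choose τ
  obtain ⟨τ, hτ, hτ1, hτ2⟩ : ∃ τ : ℝ, 0 < τ ∧ τ * ‖h‖ ≤ ρ / 4 ∧ ‖x‖ + ρ + τ * ‖h‖ ≤ 1 := by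
    refine ⟨min (ρ / 4) (1 - ‖x‖ - ρ) / ‖h‖, ?_, ?_, ?_⟩
    · apply div_pos _ hhn
      exact lt_min (by linarith) (by linarith)
    · rw [div_mul_cancel₀ _ hhn.ne']; exact min_le_left _ _
    · rw [div_mul_cancel₀ _ hhn.ne']
      have := min_le_right (ρ / 4) (1 - ‖x‖ - ρ)
      linarith
  -- norms of the points used
  have hnorm : ∀ s : ℝ, 0 ≤ s → s ≤ τ → ‖x + s • h‖ + ρ ≤ 1 := by
    intro s hs hs'
    have : ‖x + s • h‖ ≤ ‖x‖ + s * ‖h‖ := by
      refine (norm_add_le _ _).trans ?_
      rw [norm_smul, Real.norm_of_nonneg hs]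
    have h2 : s * ‖h‖ ≤ τ * ‖h‖ := by gcongr
    linarith
  have hcontw : ∀ s : ℝ, 0 ≤ s → s ≤ τ →
      ContinuousOn (fun y : E n => F (x + s • h - ρ • y)) (closedBall 0 1) :=
    fun s hs hs' => cont_shift hF.toBase hρ.le (hnorm s hs hs')
  -- total increment
  set Δ := ∫ y in closedBall (0 : E n) (1/4), inner ℝ (F (x + τ • h - ρ • y) - F (x - ρ • y)) h with hΔ
  have sub4 : closedBall (0 : E n) (1/4) ⊆ closedBall 0 1 := closedBall_subset_closedBall (by norm_num)
  have hcont0 : ContinuousOn (fun y : E n => F (x - ρ • y)) (closedBall 0 1) := by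
    have := hcontw 0 le_rfl hτ.le
    simpa using this
  have hΔpos : 0 < Δ := by
    rw [hΔ]
    have hint : IntegrableOn (fun y : E n => (inner ℝ (F (x + τ • h - ρ • y) - F (x - ρ • y)) h : ℝ))
        (closedBall 0 (1/4)) := by
      refine ContinuousOn.integrableOn_compact (isCompact_closedBall _ _) ?_
      exact (((hcontw τ hτ.le le_rfl).sub hcont0).mono sub4).inner continuousOn_const
    rw [setIntegral_pos_iff_support_of_nonneg_ae _ hint]
    · have hsub : ball (0 : E n) (1/4) ⊆ Function.support
          (fun y : E n => (inner ℝ (F (x + τ • h - ρ • y) - F (x - ρ • y)) h : ℝ)) ∩ closedBall 0 (1/4) := by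
        intro y hy
        have hy1 : ‖y‖ ≤ 1/4 := by
          have : ‖y‖ < 1/4 := by simpa using hy
          exact this.le
        refine ⟨?_, by simpa using hy1⟩
        have hu : ‖x - ρ • y‖ ≤ 1 := by
          have := mem_cb hρ.le hxρ.le (show ‖y‖ ≤ 1 by linarith)
          simpa using this
        have hu' : ‖(x - ρ • y) + τ • h‖ ≤ 1 := by
          have := mem_cb hρ.le (hnorm τ hτ.le le_rfl) (show ‖y‖ ≤ 1 by linarith)
          have e : x + τ • h - ρ • y = (x - ρ • y) + τ • h := by abel
          rw [e] at this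
          simpa using this
        have := incr_pos hF hδ hτ hh hu hu'
        have e : x + τ • h - ρ • y = (x - ρ • y) + τ • h := by abel
        simp only [Function.mem_support]
        rw [e]
        exact this.ne'
      refine lt_of_lt_of_le ?_ (measure_mono hsub)
      exact measure_ball_pos _ _ (by norm_num)
    · refine (ae_restrict_iff' measurableSet_closedBall).2 (Eventually.of_forall fun y hy => ?_)
      have hy1 : ‖y‖ ≤ 1/4 := by simpa using hy
      have hu : ‖x - ρ • y‖ ≤ 1 := by
        have := mem_cb hρ.le hxρ.le (show ‖y‖ ≤ 1 by linarith)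
        simpa using this
      have hu' : ‖(x - ρ • y) + τ • h‖ ≤ 1 := by
        have := mem_cb hρ.le (hnorm τ hτ.le le_rfl) (show ‖y‖ ≤ 1 by linarith)
        have e : x + τ • h - ρ • y = (x - ρ • y) + τ • h := by abel
        rw [e] at this
        simpa using this
      have := incr_nonneg hF hδ hτ hu hu'
      have e : x + τ • h - ρ • y = (x - ρ • y) + τ • h := by abel
      simp only [Pi.zero_apply]
      rw [e]
      exact this
  -- key inequality
  have key : ∀ N : ℕ, 0 < N → c * Δ ≤ N * inner ℝ (M F ρ (x + (τ / N) • h) - M F ρ x) h := by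
    intro N hN
    have hNr : (0 : ℝ) < N := by exact_mod_cast hN
    set t : ℝ := τ / N with ht
    have htpos : 0 < t := div_pos hτ hNr
    have hNt : N * t = τ := by rw [ht]; field_simp
    have hit : ∀ i : ℕ, i ≤ N → 0 ≤ i * t ∧ i * t ≤ τ := by
      intro i hi
      have : (i : ℝ) ≤ N := by exact_mod_cast hi
      refine ⟨by positivity, ?_⟩
      rw [← hNt]; gcongr
    have htτ : t ≤ τ := by
      have := (hit 1 hN).2
      simpa using this
    -- A(t)
    have hA : inner ℝ (M F ρ (x + t • h) - M F ρ x) h =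
        ∫ y, ph n y • (inner ℝ (F (x + t • h - ρ • y) - F (x - ρ • y)) h : ℝ) := by
      have i1 := int_shift hF.toBase hρ.le (hnorm t htpos.le htτ)
      have i2 := int_shift hF.toBase hρ.le hxρ.le
      have i3 : Integrable (fun y => ph n y • F (x + t • h - ρ • y) - ph n y • F (x - ρ • y)) :=
        i1.sub i2
      unfold M
      rw [← integral_sub i1 i2, real_inner_comm, ← integral_inner i3]
      refine integral_congr_ae (Eventually.of_forall fun y => ?_)
      simp only [← smul_sub, real_inner_smul_right, smul_eq_mul]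
      rw [real_inner_comm]
    rw [hA]
    -- pieces
    set w : ℕ → E n → ℝ := fun i y => inner ℝ (F (x + (i * t) • h - ρ • y)) h with hw
    have hwint : ∀ i, i ≤ N → IntegrableOn (w i) (closedBall 0 (1/4)) := by
      intro i hi
      refine ContinuousOn.integrableOn_compact (isCompact_closedBall _ _) ?_
      exact ((hcontw _ (hit i hi).1 (hit i hi).2).mono sub4).inner continuousOn_const
    have htel : Δ = ∑ i ∈ Finset.range N, ∫ y in closedBall (0 : E n) (1/4), (w (i+1) y - w i y) := by
      have e1 : ∀ i ∈ Finset.range N, (∫ y in closedBall (0 : E n) (1/4), (w (i+1) y - w i y)) =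
          (∫ y in closedBall (0 : E n) (1/4), w (i+1) y) - ∫ y in closedBall (0 : E n) (1/4), w i y := by
        intro i hi
        have := Finset.mem_range.1 hi
        exact integral_sub (hwint (i+1) this) (hwint i this.le)
      rw [Finset.sum_congr rfl e1, Finset.sum_range_sub (fun i => ∫ y in closedBall (0 : E n) (1/4), w i y)]
      rw [← integral_sub (hwint N le_rfl) (hwint 0 (Nat.zero_le _))]
      rw [hΔ]
      refine integral_congr_ae (Eventually.of_forall fun y => ?_)
      simp only [hw, hNt, Nat.cast_zero, zero_mul, zero_smul, add_zero, inner_sub_left]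
    have hpiece : ∀ i ∈ Finset.range N, c * (∫ y in closedBall (0 : E n) (1/4), (w (i+1) y - w i y)) ≤
        ∫ y, ph n y • (inner ℝ (F (x + t • h - ρ • y) - F (x - ρ • y)) h : ℝ) := by
      intro i hi
      have hiN := Finset.mem_range.1 hi
      set a : E n := (i * t / ρ) • h with ha
      have han : ‖a‖ ≤ 1/4 := by
        rw [ha, norm_smul, Real.norm_of_nonneg (div_nonneg (hit i hiN.le).1 hρ.le)]
        rw [div_mul_eq_mul_div, div_le_iff₀ hρ]
        have : i * t * ‖h‖ ≤ τ * ‖h‖ := by
          have := (hit i hiN.le).2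
          gcongr
        linarith
      have hρa : ρ • a = (i * t) • h := by
        rw [ha, smul_smul]; congr 1; field_simp
      set Q : E n → ℝ := fun y => inner ℝ (F (x + t • h - ρ • y) - F (x - ρ • y)) h with hQ
      have hQw : ∀ y, w (i+1) y - w i y = Q (y - a) := by
        intro y
        simp only [hw, hQ]
        rw [← inner_sub_left]
        congr 2
        · congr 1
          rw [smul_sub, hρa]; push_cast; rw [add_mul, one_mul, add_smul]; abel
        · congr 1
          rw [smul_sub, hρa]; abel
      have hcontQ : ContinuousOn Q (closedBall 0 1) :=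
        ((hcontw t htpos.le htτ).sub hcont0).inner continuousOn_const
      have hQnn : ∀ y : E n, ‖y‖ ≤ 1 → 0 ≤ Q y := by
        intro y hy
        have hu : ‖x - ρ • y‖ ≤ 1 := by
          have := mem_cb hρ.le hxρ.le hy
          simpa using this
        have e : x + t • h - ρ • y = (x - ρ • y) + t • h := by abel
        have hu' : ‖(x - ρ • y) + t • h‖ ≤ 1 := by
          have := mem_cb hρ.le (hnorm t htpos.le htτ) hy
          rw [e] at this
          simpa using this
        have := incr_nonneg hF hδ htpos hu hu'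
        simp only [hQ]
        rw [e]
        exact this
      have e2 : (∫ y in closedBall (0 : E n) (1/4), (w (i+1) y - w i y)) =
          ∫ y, (closedBall (0 : E n) (1/4)).indicator (fun z => Q (z - a)) (y + a) := by
        rw [integral_add_right_eq_self (μ := (volume : Measure (E n)))
          (fun y => (closedBall (0 : E n) (1/4)).indicator (fun z => Q (z - a)) y) a]
        rw [integral_indicator measurableSet_closedBall]
        refine integral_congr_ae (Eventually.of_forall fun y => ?_)
        exact hQw y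
      rw [e2, ← integral_const_mul]
      have hI : Integrable (fun y => (closedBall (0 : E n) (1/4)).indicator (fun z => Q (z - a)) (y + a)) := by
        have : Integrable (fun y => (closedBall (0 : E n) (1/4)).indicator (fun z => Q (z - a)) y) := by
          rw [integrable_indicator_iff measurableSet_closedBall]
          refine ContinuousOn.integrableOn_compact (isCompact_closedBall _ _) ?_
          refine hcontQ.comp (by fun_prop) ?_
          intro y hy
          have hy1 : ‖y‖ ≤ 1/4 := by simpa using hy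
          simp only [mem_closedBall, dist_zero_right]
          have := norm_sub_le y a
          linarith
        exact this.comp_add_right a
      refine integral_mono (hI.const_mul c) (int_of_cont hcontQ) ?_
      intro y
      simp only [smul_eq_mul]
      by_cases hy : y + a ∈ closedBall (0 : E n) (1/4)
      · rw [indicator_of_mem hy]
        have e3 : y + a - a = y := by abel
        simp only [e3]
        have hy1 : ‖y + a‖ ≤ 1/4 := by simpa using hy
        have hy2 : ‖y‖ ≤ 1/2 := by
          have : ‖y‖ ≤ ‖y + a‖ + ‖a‖ := by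
            have := norm_sub_le (y + a) a
            rwa [e3] at this
          linarith
        exact mul_le_mul_of_nonneg_right (hcl y hy2) (hQnn y (by linarith))
      · rw [indicator_of_notMem hy, mul_zero]
        by_cases hy1 : ‖y‖ ≤ 1
        · exact mul_nonneg (ph_nonneg y) (hQnn y hy1)
        · rw [ph_zero (by linarith), zero_mul]
    rw [htel, Finset.mul_sum]
    calc ∑ i ∈ Finset.range N, c * ∫ y in closedBall (0 : E n) (1/4), (w (i+1) y - w i y)
        ≤ ∑ i ∈ Finset.range N, ∫ y, ph n y • (inner ℝ (F (x + t • h - ρ • y) - F (x - ρ • y)) h : ℝ) :=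
          Finset.sum_le_sum hpiece
      _ = _ := by simp
  -- limit
  intro h0
  have hD := deriv_orth hF.toBase hε hε' hx hxh
  rw [h0] at hD
  have hlim : Tendsto (fun t : ℝ => t⁻¹ • (M F ρ (x + t • h) - M F ρ x)) (𝓝[>] 0) (𝓝 0) := by
    have := hD.tendsto_slope_zero_right
    simpa using this
  have hseq : Tendsto (fun N : ℕ => τ / ((N : ℝ) + 1)) atTop (𝓝[>] 0) := by
    rw [tendsto_nhdsWithin_iff]
    refine ⟨?_, Eventually.of_forall fun N => ?_⟩
    · have := (tendsto_one_div_add_atTop_nhds_zero_nat (𝕜 := ℝ)).const_mul τ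
      rw [mul_zero] at this
      refine this.congr fun N => ?_
      rw [mul_one_div]
    · simp only [mem_Ioi]; positivity
  have hl2 := hlim.comp hseq
  have hl3 : Tendsto (fun N : ℕ => inner ℝ (((τ / ((N : ℝ) + 1))⁻¹) •
      (M F ρ (x + (τ / ((N : ℝ) + 1)) • h) - M F ρ x)) h) atTop (𝓝 0) := by
    have := Filter.Tendsto.inner (𝕜 := ℝ) hl2 (tendsto_const_nhds (x := h))
    simpa using this
  have hge : ∀ N : ℕ, c * Δ / τ ≤ inner ℝ (((τ / ((N : ℝ) + 1))⁻¹) •
      (M F ρ (x + (τ / ((N : ℝ) + 1)) • h) - M F ρ x)) h := by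
    intro N
    have := key (N + 1) (Nat.succ_pos N)
    push_cast at this
    rw [real_inner_smul_left, div_le_iff₀ hτ]
    have e : (τ / ((N : ℝ) + 1))⁻¹ * inner ℝ (M F ρ (x + (τ / ((N : ℝ) + 1)) • h) - M F ρ x) h * τ =
        ((N : ℝ) + 1) * inner ℝ (M F ρ (x + (τ / ((N : ℝ) + 1)) • h) - M F ρ x) h := by
      field_simp
    rw [e]; exact this
  have := ge_of_tendsto hl3 (Eventually.of_forall hge)
  have hpos : 0 < c * Δ / τ := by positivity
  linarith

end Helper22QC
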