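import Pool.Agent.Helper22_QC.Mol3
import Pool.Agent.Helper44_QC.Lin

/-! Mollification: the mollified map is a quasiconformal diffeomorphism of the ball. -/

namespace Helper22QC

open Metric Set Filter Topology MeasureTheory

variable {n : ℕ}

lemma exists_orth (hn : 2 ≤ n) (x : E n) : ∃ h : E n, h ≠ 0 ∧ inner ℝ x h = 0 := by
  have h1 := Submodule.finrank_add_finrank_orthogonal (𝕜 := ℝ) (Submodule.span ℝ {x})
  have h2 : Module.finrank ℝ (Submodule.span ℝ {x}) ≤ 1 := by
    have := finrank_span_le_card (R := ℝ) ({x} : Set (E n))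
    simpa using this
  have h3 : Module.finrank ℝ (E n) = n := by simp
  have h4 : 0 < Module.finrank ℝ ((Submodule.span ℝ {x})ᗮ : Submodule ℝ (E n)) := by omega
  have h5 : ((Submodule.span ℝ {x})ᗮ : Submodule ℝ (E n)) ≠ ⊥ := by
    intro h
    rw [h] at h4
    simp at h4
  obtain ⟨h, hh, hne⟩ := Submodule.exists_mem_ne_zero_of_ne_bot h5
  refine ⟨h, hne, ?_⟩
  exact (Submodule.mem_orthogonal _ _).1 hh x (Submodule.mem_span_singleton_self x)

lemma Me_ball {F : E n → E n} (hF : Base F) {ε : ℝ} (hε : 0 ≤ ε) (hε' : ε ≤ 1/4)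
    {x : E n} (hx : ‖x‖ < 1) : ‖Me F ε x‖ < 1 := by
  have hρ := sc_nonneg hε hx.le
  have hxρ := norm_add_sc_lt hε hε' hx
  have hc := (cont_shift hF hρ hxρ.le).norm
  obtain ⟨y0, hy0, hmax⟩ := (isCompact_closedBall (0 : E n) 1).exists_isMaxOn
    (nonempty_closedBall.2 zero_le_one) hc
  set r := ‖F (x - sc ε x • y0)‖ with hr
  have hr1 : r < 1 := by
    have := hF.ball _ (mem_b hρ hxρ (by simpa using hy0 : ‖y0‖ ≤ 1))
    simpa using this
  have : ‖Me F ε x‖ ≤ ∫ y, ph n y * r := by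
    unfold Me M
    refine norm_integral_le_of_norm_le (ph_integrable.mul_const _) ?_
    refine Eventually.of_forall fun y => ?_
    rw [norm_smul, Real.norm_of_nonneg (ph_nonneg y)]
    by_cases hy : ‖y‖ ≤ 1
    · refine mul_le_mul_of_nonneg_left ?_ (ph_nonneg y)
      exact hmax (by simpa using hy)
    · rw [ph_zero (by linarith)]; simp
  rw [integral_mul_const, ph_int, one_mul] at this
  linarith

lemma Me_sphere {F : E n → E n} {ε : ℝ} {x : E n} (hx : ‖x‖ = 1) : Me F ε x = F x := by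
  unfold Me M sc
  rw [hx]
  simp only [one_pow, sub_self, mul_zero, zero_smul, sub_zero]
  rw [integral_smul_const, ph_int, one_smul]

lemma Me_cont {F : E n → E n} (hF : Base F) {ε : ℝ} (hε : 0 ≤ ε) (hε' : ε ≤ 1/4) :
    ContinuousOn (Me F ε) (closedBall 0 1) := by
  have huc : UniformContinuousOn F (closedBall 0 1) :=
    (isCompact_closedBall _ _).uniformContinuousOn_of_continuous hF.cont
  rw [Metric.uniformContinuousOn_iff] at huc
  rw [Metric.continuousOn_iff]
  intro x hx η hη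
  obtain ⟨d, hd, hdd⟩ := huc (η/2) (by linarith)
  refine ⟨d / 2, by linarith, ?_⟩
  intro x' hx' hdist
  have hxn : ‖x‖ ≤ 1 := by simpa using hx
  have hxn' : ‖x'‖ ≤ 1 := by simpa using hx'
  rw [dist_eq_norm] at hdist ⊢
  have h1 := norm_le_int hF hε hε' hxn hxn'
  have h2 : (∫ y, ph n y • ‖F (x' - sc ε x' • y) - F (x - sc ε x • y)‖) ≤ ∫ y, ph n y * (η/2) := by
    refine integral_mono (int_of_cont (cont_diff hF hε hε' hxn hxn').norm) (ph_integrable.mul_const _) ?_
    intro y
    simp only [smul_eq_mul]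
    by_cases hy : ‖y‖ ≤ 1
    · refine mul_le_mul_of_nonneg_left ?_ (ph_nonneg y)
      have := hdd _ (mem_cb (sc_nonneg hε hxn') (norm_add_sc hε hε' hxn') hy) _
        (mem_cb (sc_nonneg hε hxn) (norm_add_sc hε hε' hxn) hy) ?_
      · rw [dist_eq_norm] at this; exact this.le
      · rw [dist_eq_norm]
        have e : x' - sc ε x' • y - (x - sc ε x • y) = (x' - x) - (sc ε x' - sc ε x) • y := by
          rw [sub_smul]; abel
        rw [e]
        have h3 := norm_sub_le (x' - x) ((sc ε x' - sc ε x) • y)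
        have h4 : ‖(sc ε x' - sc ε x) • y‖ ≤ 2 * ε * ‖x' - x‖ := by
          rw [norm_smul, Real.norm_eq_abs]
          have := sc_lip hε hxn hxn'
          calc |sc ε x' - sc ε x| * ‖y‖ ≤ (2 * ε * ‖x' - x‖) * 1 := by gcongr
            _ = _ := by ring
        have := norm_nonneg (x' - x)
        nlinarith
    · rw [ph_zero (by linarith)]; simp
  rw [integral_mul_const, ph_int, one_mul] at h2
  linarith

lemma Me_inj_deriv {δ : ℝ} {F : E n → E n} (hn : 2 ≤ n) (hF : Data δ F) (hδ : 0 < δ) (hδ1 : δ ≤ 1)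
    {ε : ℝ} (hε : 0 < ε) (hε' : ε ≤ δ / 8) {x : E n} (hx : ‖x‖ < 1) (h : E n)
    (h0 : fderiv ℝ (Me F ε) x h = 0) : h = 0 := by
  by_contra hne
  have hz := H44QC.linKer n (δ/2) (by linarith) (fderiv ℝ (Me F ε) x)
    (deriv_mono hF hδ hδ1 hε hε' hx) h hne h0
  obtain ⟨k, hk, hxk⟩ := exists_orth hn x
  have := nondeg hF hδ hε (by linarith) hx hxk hk
  rw [hz] at this
  exact this rfl

theorem Me_qc0 {F : E n → E n} (hF : Base F) {ε : ℝ} (hε : 0 < ε) (hε4 : ε ≤ 1/4) {K : ℝ}
    (hinj : InjOn (Me F ε) (ball 0 1))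
    (hk : ∀ x : E n, ‖x‖ < 1 → ∀ h, fderiv ℝ (Me F ε) x h = 0 → h = 0)
    (hd : ∀ x : E n, ‖x‖ < 1 → 0 < (fderiv ℝ (Me F ε) x).det ∧
      ‖fderiv ℝ (Me F ε) x‖ ^ n ≤ K * (fderiv ℝ (Me F ε) x).det) : QCDiffeo K (Me F ε) := by
  set g := Me F ε with hg
  have hsm := Me_smooth hF hε hε4
  have hcd : ∀ x ∈ ball (0 : E n) 1, ContDiffAt ℝ (⊤ : ℕ∞) g x := fun x hx =>
    hsm.contDiffAt (isOpen_ball.mem_nhds hx)
  have hmaps : MapsTo g (ball 0 1) (ball 0 1) := by
    intro x hx
    have := Me_ball hF hε.le hε4 (by simpa using hx : ‖x‖ < 1)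
    simpa using this
  -- derivative as an equivalence
  have hker : ∀ x ∈ ball (0 : E n) 1, LinearMap.ker (fderiv ℝ g x : E n →ₗ[ℝ] E n) = ⊥ := by
    intro x hx
    rw [LinearMap.ker_eq_bot']
    intro h hh
    exact hk x (by simpa using hx : ‖x‖ < 1) h hh
  have hopen : IsOpen (g '' ball 0 1) := by
    rw [isOpen_iff_mem_nhds]
    rintro _ ⟨x, hx, rfl⟩
    have hst : HasStrictFDerivAt g (fderiv ℝ g x) x :=
      (hcd x hx).hasStrictFDerivAt (by simp)
    have hsurj : LinearMap.range (fderiv ℝ g x : E n →ₗ[ℝ] E n) = ⊤ :=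
      LinearMap.ker_eq_bot_iff_range_eq_top.1 (hker x hx)
    rw [← hst.map_nhds_eq_of_surj hsurj]
    exact image_mem_map (isOpen_ball.mem_nhds hx)
  have hcc : IsCompact (g '' closedBall 0 1) :=
    (isCompact_closedBall _ _).image_of_continuousOn (Me_cont hF hε.le hε4)
  have hsurj : SurjOn g (ball 0 1) (ball 0 1) := by
    have hpc : IsPreconnected (ball (0 : E n) 1) := (convex_ball (0 : E n) 1).isPreconnected
    refine hpc.subset_left_of_subset_union hopen hcc.isClosed.isOpen_compl ?_ ?_ ?_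
    · rw [Set.disjoint_compl_right_iff_subset]
      exact image_mono ball_subset_closedBall
    · intro y hy
      by_cases hyc : y ∈ g '' closedBall 0 1
      · left
        obtain ⟨x, hx, rfl⟩ := hyc
        refine ⟨x, ?_, rfl⟩
        have hx1 : ‖x‖ ≤ 1 := by simpa using hx
        rcases lt_or_eq_of_le hx1 with h | h
        · simpa using h
        · exfalso
          have h2 : ‖g x‖ < 1 := by simpa using hy
          rw [hg, Me_sphere h, hF.sph x h] at h2
          exact lt_irrefl _ h2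
      · right; exact hyc
    · exact ⟨g 0, hmaps (by simp), ⟨0, by simp, rfl⟩⟩
  have hbij : BijOn g (ball 0 1) (ball 0 1) := ⟨hmaps, hinj, hsurj⟩
  refine ⟨hbij, hsm, ?_, ?_, ?_⟩
  · -- smoothness of the inverse
    intro y hy
    obtain ⟨x, hx, rfl⟩ := hsurj hy
    have hst : HasStrictFDerivAt g (fderiv ℝ g x) x :=
      (hcd x hx).hasStrictFDerivAt (by simp)
    let e' : E n ≃L[ℝ] E n := ContinuousLinearEquiv.ofBijective (fderiv ℝ g x) (hker x hx)
      (LinearMap.ker_eq_bot_iff_range_eq_top.1 (hker x hx))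
    have he' : HasFDerivAt g (e' : E n →L[ℝ] E n) x := by
      have : (e' : E n →L[ℝ] E n) = fderiv ℝ g x := by ext; rfl
      rw [this]; exact hst.hasFDerivAt
    have h1 := (hcd x hx).to_localInverse he' (by simp)
    have h2 : Function.invFunOn g (ball 0 1) =ᶠ[𝓝 (g x)]
        (hcd x hx).localInverse he' (by simp) := by
      have ev1 : ∀ᶠ z in 𝓝 (g x), g ((hcd x hx).localInverse he' (by simp) z) = z := by
        exact ((hcd x hx).toOpenPartialHomeomorph g he' (by simp)).eventually_right_inverse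
          (by exact (hcd x hx).image_mem_toOpenPartialHomeomorph_target he' (by simp))
      have ev2 : ∀ᶠ z in 𝓝 (g x), (hcd x hx).localInverse he' (by simp) z ∈ ball (0 : E n) 1 := by
        have hc := h1.continuousAt
        have : (hcd x hx).localInverse he' (by simp) (g x) = x :=
          (hcd x hx).localInverse_apply_image he' (by simp)
        exact hc (by rw [this]; exact isOpen_ball.mem_nhds hx)
      have ev3 : ∀ᶠ z in 𝓝 (g x), z ∈ ball (0 : E n) 1 := isOpen_ball.mem_nhds (hmaps hx)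
      filter_upwards [ev1, ev2, ev3] with z hz1 hz2 hz3
      have hzi := hsurj hz3
      refine hinj (Function.invFunOn_mem hzi) hz2 ?_
      rw [hz1]; exact Function.invFunOn_eq hzi
    exact (h1.congr_of_eventuallyEq h2).contDiffWithinAt
  · intro x hx
    have hx1 : ‖x‖ < 1 := by simpa using hx
    exact (hd x hx1).1
  · intro x hx
    have hx1 : ‖x‖ < 1 := by simpa using hx
    exact (hd x hx1).2

theorem Me_qc {δ : ℝ} {F : E n → E n} (hn : 2 ≤ n) (hF : Data δ F) (hδ : 0 < δ) (hδ1 : δ ≤ 1)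
    {ε : ℝ} (hε : 0 < ε) (hε' : ε ≤ δ / 8) {K : ℝ}
    (hK : ∀ L : E n →L[ℝ] E n,
      (∀ h, δ / 2 * (‖L h‖ * ‖h‖) ≤ inner ℝ (L h) h) → (∀ h, L h = 0 → h = 0) →
      0 < L.det ∧ ‖L‖ ^ n ≤ K * L.det) : QCDiffeo K (Me F ε) := by
  refine Me_qc0 hF.toBase hε (by linarith) ?_ ?_ ?_
  · intro x hx x' hx' he
    have h1 : ‖x‖ < 1 := by simpa using hx
    have h2 : ‖x'‖ < 1 := by simpa using hx'
    exact (inj_Me hF hδ hδ1 hε.le hε' h2.le h1.le he)
  · intro x hx h hh
    exact Me_inj_deriv hn hF hδ hδ1 hε hε' hx h hh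
  · intro x hx1
    exact (hK _ (deriv_mono hF hδ hδ1 hε hε' hx1)
      (Me_inj_deriv hn hF hδ hδ1 hε hε' hx1))

open Classical in
/-- extension of a homeomorphism of the closed ball by zero -/
noncomputable def ext (f : closedBall (0 : E n) 1 ≃ₜ closedBall (0 : E n) 1) (z : E n) : E n :=
  if h : z ∈ closedBall (0 : E n) 1 then (f ⟨z, h⟩ : E n) else 0

lemma ext_mem (f : closedBall (0 : E n) 1 ≃ₜ closedBall (0 : E n) 1) {z : E n}
    (h : z ∈ closedBall (0 : E n) 1) : ext f z = f ⟨z, h⟩ := by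
  simp only [ext, h, dif_pos]

lemma base_ext (f : closedBall (0 : E n) 1 ≃ₜ closedBall (0 : E n) 1)
    (hs : ∀ x : closedBall (0 : E n) 1, ‖(f x : E n)‖ = 1 ↔ ‖(x : E n)‖ = 1) : Base (ext f) := by
  have hinj : InjOn (ext f) (closedBall 0 1) := by
    intro x hx y hy h
    rw [ext_mem f hx, ext_mem f hy] at h
    have := f.injective (Subtype.ext h)
    simpa using this
  refine ⟨?_, hinj, ?_, ?_, ?_⟩
  · rw [continuousOn_iff_continuous_domRestrict]
    have : (closedBall (0 : E n) 1).domRestrict (ext f) = fun z => (f z : E n) := by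
      funext z
      exact ext_mem f z.2
    rw [this]
    exact continuous_subtype_val.comp f.continuous
  · intro x hx
    have hxn : ‖x‖ < 1 := by simpa using hx
    have hxc : x ∈ closedBall (0 : E n) 1 := ball_subset_closedBall hx
    rw [ext_mem f hxc, mem_ball_zero_iff]
    refine lt_of_le_of_ne (mem_closedBall_zero_iff.1 (f ⟨x, hxc⟩).2) ?_
    intro h
    have := (hs ⟨x, hxc⟩).1 h
    simp only at this
    linarith
  · intro x hx
    have hxc : x ∈ closedBall (0 : E n) 1 := by simp [hx]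
    rw [ext_mem f hxc]
    exact (hs ⟨x, hxc⟩).2 hx
  · intro x hx
    have : x ∉ closedBall (0 : E n) 1 := by simpa using hx
    simp only [ext, this, dif_neg, not_false_eq_true]

lemma data_ext {δ : ℝ} (hδ : 0 < δ) (f : closedBall (0 : E n) 1 ≃ₜ closedBall (0 : E n) 1)
    (hm : Mono δ f) : Data δ (ext f) := by
  have hnorm : ∀ z ∈ closedBall (0 : E n) 1, ‖ext f z‖ ≤ 1 := by
    intro z hz
    rw [ext_mem f hz]
    exact mem_closedBall_zero_iff.1 (f ⟨z, hz⟩).2
  have hmono : ∀ x ∈ closedBall (0 : E n) 1, ∀ y ∈ closedBall (0 : E n) 1,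
      δ * (‖ext f x - ext f y‖ * ‖x - y‖) ≤ inner ℝ (ext f x - ext f y) (x - y) := by
    intro x hx y hy
    rw [ext_mem f hx, ext_mem f hy]
    exact hm ⟨x, hx⟩ ⟨y, hy⟩
  have hinj : InjOn (ext f) (closedBall 0 1) := by
    intro x hx y hy h
    rw [ext_mem f hx, ext_mem f hy] at h
    have := f.injective (Subtype.ext h)
    simpa using this
  refine ⟨⟨?_, hinj, ?_, ?_, ?_⟩, hmono⟩
  · rw [continuousOn_iff_continuous_domRestrict]
    have : (closedBall (0 : E n) 1).domRestrict (ext f) = fun z => (f z : E n) := by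
      funext z
      exact ext_mem f z.2
    rw [this]
    exact continuous_subtype_val.comp f.continuous
  · -- interior to interior
    intro x hx
    have hxn : ‖x‖ < 1 := by simpa using hx
    have hxc : x ∈ closedBall (0 : E n) 1 := ball_subset_closedBall hx
    by_contra hcon
    have hw : ‖ext f x‖ = 1 := by
      have h1 := hnorm x hxc
      have h2 : 1 ≤ ‖ext f x‖ := by simpa using hcon
      linarith
    set w := ext f x with hwdef
    set s : ℝ := 1 - ‖x‖ with hs
    have hspos : 0 < s := by linarith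
    have hx' : x + s • w ∈ closedBall (0 : E n) 1 := by
      simp only [mem_closedBall, dist_zero_right]
      calc ‖x + s • w‖ ≤ ‖x‖ + ‖s • w‖ := norm_add_le _ _
        _ = 1 := by rw [norm_smul, Real.norm_of_nonneg hspos.le, hw]; simp [hs]
    have h1 := hmono _ hx' x hxc
    have e1 : x + s • w - x = s • w := by abel
    have hne : ext f (x + s • w) ≠ w := by
      intro he
      have := hinj hx' hxc he
      have h3 : s • w = 0 := by simpa using this
      have h4 : ‖s • w‖ = 0 := by rw [h3]; simp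
      rw [norm_smul, hw, Real.norm_of_nonneg hspos.le] at h4
      linarith
    have hpos : 0 < ‖ext f (x + s • w) - w‖ := norm_pos_iff.2 (sub_ne_zero.2 hne)
    rw [e1, real_inner_smul_right, norm_smul, hw, Real.norm_of_nonneg hspos.le] at h1
    have h5 : inner ℝ (ext f (x + s • w) - w) w ≤ 0 := by
      rw [inner_sub_left, real_inner_self_eq_norm_sq, hw]
      have := real_inner_le_norm (ext f (x + s • w)) w
      rw [hw] at this
      have := hnorm _ hx'
      linarith
    have h6 : 0 < δ * (‖ext f (x + s • w) - w‖ * (s * 1)) := by positivity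
    nlinarith
  · intro x hx
    have hxc : x ∈ closedBall (0 : E n) 1 := by simp [hx]
    by_contra hcon
    have hw : ‖ext f x‖ < 1 := lt_of_le_of_ne (hnorm x hxc) hcon
    set w := ext f x with hwdef
    set s : ℝ := 1 - ‖w‖ with hs
    have hspos : 0 < s := by linarith
    have hw' : w + s • x ∈ closedBall (0 : E n) 1 := by
      simp only [mem_closedBall, dist_zero_right]
      calc ‖w + s • x‖ ≤ ‖w‖ + ‖s • x‖ := norm_add_le _ _
        _ = 1 := by rw [norm_smul, Real.norm_of_nonneg hspos.le, hx]; simp [hs]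
    set x' : closedBall (0 : E n) 1 := f.symm ⟨w + s • x, hw'⟩ with hx'
    have hfx' : ext f x' = w + s • x := by
      rw [ext_mem f x'.2]
      have : f ⟨x', x'.2⟩ = ⟨w + s • x, hw'⟩ := by
        rw [hx']; simp
      rw [this]
    have h1 := hmono x' x'.2 x hxc
    rw [hfx'] at h1
    have e1 : w + s • x - w = s • x := by abel
    have hne : (x' : E n) ≠ x := by
      intro he
      have : ext f x' = w := by rw [he]
      rw [hfx'] at this
      have h3 : s • x = 0 := by simpa using this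
      have h4 : ‖s • x‖ = 0 := by rw [h3]; simp
      rw [norm_smul, hx, Real.norm_of_nonneg hspos.le] at h4
      linarith
    have hpos : 0 < ‖(x' : E n) - x‖ := norm_pos_iff.2 (sub_ne_zero.2 hne)
    rw [← hwdef, e1, real_inner_smul_left, norm_smul, hx, Real.norm_of_nonneg hspos.le] at h1
    have h5 : inner ℝ x ((x' : E n) - x) ≤ 0 := by
      rw [inner_sub_right, real_inner_self_eq_norm_sq, hx]
      have := real_inner_le_norm x (x' : E n)
      rw [hx] at this
      have hx'n : ‖(x' : E n)‖ ≤ 1 := mem_closedBall_zero_iff.1 x'.2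
      linarith
    have h6 : 0 < δ * (s * 1 * ‖(x' : E n) - x‖) := by positivity
    nlinarith
  · intro x hx
    have : x ∉ closedBall (0 : E n) 1 := by simpa using hx
    simp only [ext, this, dif_neg, not_false_eq_true]

lemma approx_of_data {δ : ℝ} (hn : 2 ≤ n) (hδ : 0 < δ) (hδ1 : δ ≤ 1) {K : ℝ}
    (hK : ∀ L : E n →L[ℝ] E n,
      (∀ h, δ / 2 * (‖L h‖ * ‖h‖) ≤ inner ℝ (L h) h) → (∀ h, L h = 0 → h = 0) →
      0 < L.det ∧ ‖L‖ ^ n ≤ K * L.det) {F : E n → E n} (hF : Data δ F) (η : ℝ) (hη : 0 < η) :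
    ∃ g : E n → E n, QCDiffeo K g ∧ ∀ x : E n, ‖x‖ < 1 → ‖g x - F x‖ ≤ η := by
  obtain ⟨ε₀, hε₀, hcl⟩ := close hF.toBase η hη
  obtain ⟨ε, hεpos, hεδ, hεε⟩ : ∃ ε : ℝ, 0 < ε ∧ ε ≤ δ/8 ∧ ε ≤ ε₀/2 :=
    ⟨min (δ/8) (ε₀/2), lt_min (by linarith) (by linarith), min_le_left _ _, min_le_right _ _⟩
  refine ⟨Me F ε, Me_qc hn hF hδ hδ1 hεpos hεδ hK, ?_⟩
  intro x hxn
  have hsc : sc ε x < ε₀ := by
    unfold sc
    have := sq_nonneg ‖x‖
    nlinarith
  exact hcl (sc ε x) (sc_nonneg hεpos.le hxn.le) hsc x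
    (norm_add_sc hεpos.le (by linarith) hxn.le)

theorem mono' (n : ℕ) (hn : 2 ≤ n) (δ : ℝ) (hδ : 0 < δ) : ∃ K : ℝ,
    ∀ f : closedBall (0 : E n) 1 ≃ₜ closedBall (0 : E n) 1, Mono δ f → Approx K f := by
  obtain ⟨δ', hδ'0, hδ'1, hδ'δ⟩ : ∃ δ' : ℝ, 0 < δ' ∧ δ' ≤ 1 ∧ δ' ≤ δ :=
    ⟨min δ 1, lt_min hδ one_pos, min_le_right _ _, min_le_left _ _⟩
  obtain ⟨K, hK1, hK⟩ := H44QC.linMono n (by omega) (δ'/2) (by linarith) (by linarith)
  refine ⟨K, fun f hf η hη => ?_⟩
  have hf' : Mono δ' f := fun x y =>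
    le_trans (mul_le_mul_of_nonneg_right hδ'δ (by positivity)) (hf x y)
  obtain ⟨g, hg, hgx⟩ := approx_of_data hn hδ'0 hδ'1 hK (data_ext hδ'0 f hf') η hη
  refine ⟨g, hg, fun x hx => ?_⟩
  have h1 := hgx x (mem_ball_zero_iff.1 hx)
  rw [ext_mem f x.2] at h1
  exact h1

end Helper22QC
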