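import Pool.Agent.Helper22_QC.Mol1

/-! Part (B): homeomorphisms which are close to affine maps at small hyperbolic scales. -/

namespace Helper22QC

open Metric Set Filter Topology MeasureTheory

/-- Module KER: the kernel is Lipschitz in `L¹` under translations and dilations. -/
def KerStmt : Prop :=
  ∀ n : ℕ, ∃ C : ℝ, 0 < C ∧ ∀ (a : E n) (q : ℝ), ‖a‖ ≤ 1 → 1 / 2 ≤ q → q ≤ 2 →
    ∫ y, |q ^ n * ph n (q • (y + a)) - ph n y| ≤ C * (‖a‖ + |q - 1|)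

/-- Module TOP: lower bounds for `f` outside a ball. -/
def TopStmt : Prop :=
  ∀ (n : ℕ) (f : closedBall (0 : E n) 1 ≃ₜ closedBall (0 : E n) 1)
    (x : closedBall (0 : E n) 1) (r l : ℝ), 0 < r → ‖(x : E n)‖ + r < 1 →
    (∀ y : closedBall (0 : E n) 1, ‖(y : E n) - x‖ = r → l ≤ ‖(f y : E n) - f x‖) →
    ∀ y : closedBall (0 : E n) 1, r ≤ ‖(y : E n) - x‖ → l ≤ ‖(f y : E n) - f x‖

/-- Module DETB: determinant and norm of a perturbation of a linear map. -/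
def DetBStmt : Prop :=
  ∀ (n : ℕ) (H : ℝ) (L A : E n →L[ℝ] E n) (m : ℝ), 0 < m → 0 < L.det → ‖L‖ ≤ H * m →
    (∀ v, m * ‖v‖ ≤ ‖L v‖) → (∀ v, ‖A v - L v‖ ≤ m / 2 * ‖v‖) →
    (∀ v, A v = 0 → v = 0) ∧ 0 < A.det ∧ ‖A‖ ^ n ≤ (2 * H + 1) ^ n * A.det

/-- Module NAF: main theorem for part (B). -/
def NearAffineStmt : Prop :=
  ∀ n : ℕ, ∃ κ : ℝ, 0 < κ ∧ ∀ H : ℝ, ∃ K : ℝ,
    ∀ f : closedBall (0 : E n) 1 ≃ₜ closedBall (0 : E n) 1, NearAffine κ H f → Approx K f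

end Helper22QC
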