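import Pool.Agent.Helper22_QC.Mol4
import Pool.Agent.Helper22_QC.StmtB

/-! Part (B): nearly affine homeomorphisms. -/

namespace Helper22QC

open Metric Set Filter Topology MeasureTheory

variable {n : ℕ}

lemma int_ph_odd (L : E n →L[ℝ] E n) : ∫ y, ph n y • L y = 0 := by
  have h1 : ∫ y, ph n y • L y = ∫ y : E n, ph n (-y) • L (-y) :=
    (integral_neg_eq_self (fun y : E n => ph n y • L y) volume).symm
  have h2 : (fun y : E n => ph n (-y) • L (-y)) = fun y => -(ph n y • L y) := by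
    funext y
    have : ph n (-y) = ph n y := (bump n).normed_neg y
    rw [this, map_neg, smul_neg]
  rw [h2, integral_neg] at h1
  have h3 : (2 : ℝ) • ∫ y, ph n y • L y = 0 := by
    rw [two_smul]
    nth_rewrite 1 [h1]
    simp
  exact (smul_eq_zero.1 h3).resolve_left (by norm_num)

lemma change_var (W : E n → E n) {ρ ρ' : ℝ} (hρ : 0 < ρ) (hρ' : 0 < ρ') (x v : E n) :
    ∫ y, ph n y • W (x + v - ρ' • y) =
      ∫ y, ((ρ / ρ') ^ n * ph n ((ρ / ρ') • (y + ρ⁻¹ • v))) • W (x - ρ • y) := by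
  set q := ρ / ρ' with hq
  have hqpos : 0 < q := div_pos hρ hρ'
  set g : E n → E n := fun y => ph n y • W (x + v - ρ' • y) with hg
  have h1 : (fun y : E n => (q ^ n * ph n (q • (y + ρ⁻¹ • v))) • W (x - ρ • y)) =
      fun y => q ^ n • g (q • (y + ρ⁻¹ • v)) := by
    funext y
    simp only [hg, smul_smul]
    congr 2
    have e1 : ρ' * q = ρ := by rw [hq]; field_simp
    rw [e1, smul_add, smul_smul, mul_inv_cancel₀ hρ.ne', one_smul]
    abel
  rw [h1, integral_smul]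
  rw [integral_add_right_eq_self (μ := (volume : Measure (E n))) (fun y => g (q • y)) (ρ⁻¹ • v)]
  rw [Measure.integral_comp_smul_of_nonneg (volume : Measure (E n)) g q (hR := hqpos.le)]
  have h5 : Module.finrank ℝ (E n) = n := by simp
  rw [h5, smul_smul, mul_inv_cancel₀ (pow_pos hqpos n).ne', one_smul]

/-- local data at a point -/
structure Loc (κ H R : ℝ) (F : E n → E n) (x : E n) (L : E n →L[ℝ] E n) (m : ℝ) : Prop where
  mpos : 0 < m
  det : 0 < L.det
  norm : ‖L‖ ≤ H * m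
  low : ∀ v, m * ‖v‖ ≤ ‖L v‖
  near : ∀ z : E n, ‖z‖ ≤ 1 → ‖z - x‖ ≤ R → ‖F z - F x - L (z - x)‖ ≤ κ * m * R

lemma sc4 {ε : ℝ} (hε : 0 < ε) {x : E n} (hx : ‖x‖ < 1) :
    ε * (1 - ‖x‖) / 4 ≤ sc (ε/4) x ∧ sc (ε/4) x ≤ ε * (1 - ‖x‖) / 2 := by
  unfold sc
  have h0 := norm_nonneg x
  constructor
  · nlinarith [mul_nonneg (mul_nonneg hε.le (by linarith : 0 ≤ 1 - ‖x‖)) h0]
  · nlinarith [mul_nonneg (mul_nonneg hε.le (by linarith : 0 ≤ 1 - ‖x‖)) (by linarith : 0 ≤ 1 - ‖x‖)]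

lemma Me_near {F : E n → E n} (hF : Base F) {ε κ H : ℝ} (hκ : 0 < κ) (hε : 0 < ε) (hε' : ε ≤ 1/4)
    {x : E n} (hx : ‖x‖ < 1) {L : E n →L[ℝ] E n} {m : ℝ} (hL : Loc κ H (ε * (1 - ‖x‖)) F x L m) :
    ‖Me F (ε/4) x - F x‖ ≤ κ * m * (ε * (1 - ‖x‖)) := by
  set R := ε * (1 - ‖x‖) with hR
  have hRpos : 0 < R := mul_pos hε (by linarith)
  obtain ⟨h1, h2⟩ := sc4 hε hx
  rw [← hR] at h1 h2
  set ρ := sc (ε/4) x with hρ
  have hρ0 : 0 ≤ ρ := by linarith
  have hxρ : ‖x‖ + ρ ≤ 1 := norm_add_sc (by linarith) (by linarith) hx.le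
  have e : Me F (ε/4) x - F x = ∫ y, ph n y • (F (x - ρ • y) - F x - L (x - ρ • y - x)) := by
    have i1 := int_shift hF hρ0 hxρ
    have i2 : Integrable (fun y => ph n y • F x) := ph_integrable.smul_const _
    have i3 : Integrable (fun y => ph n y • L (x - ρ • y - x)) :=
      int_of_cont (by fun_prop)
    have i4 : Integrable (fun y => ph n y • F (x - ρ • y) - ph n y • F x) := i1.sub i2
    simp_rw [smul_sub]
    rw [integral_sub i4 i3, integral_sub i1 i2, integral_smul_const, ph_int, one_smul]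
    have : (fun y => ph n y • L (x - ρ • y - x)) = fun y => (-ρ) • (ph n y • L y) := by
      funext y
      have e1 : x - ρ • y - x = (-ρ) • y := by rw [neg_smul]; abel
      rw [e1, map_smul, smul_comm]
    rw [this, integral_smul, int_ph_odd, smul_zero, sub_zero]
    rfl
  rw [e]
  have hκm : 0 ≤ κ * m * R := by have := hL.mpos; positivity
  calc ‖∫ y, ph n y • (F (x - ρ • y) - F x - L (x - ρ • y - x))‖ ≤ ∫ y, ph n y * (κ * m * R) := by
        refine norm_integral_le_of_norm_le (ph_integrable.mul_const _) ?_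
        refine Eventually.of_forall fun y => ?_
        rw [norm_smul, Real.norm_of_nonneg (ph_nonneg y)]
        by_cases hy : ‖y‖ ≤ 1
        · refine mul_le_mul_of_nonneg_left ?_ (ph_nonneg y)
          refine hL.near _ (mem_closedBall_zero_iff.1 (mem_cb hρ0 hxρ hy)) ?_
          have e1 : x - ρ • y - x = -(ρ • y) := by abel
          rw [e1, norm_neg, norm_smul, Real.norm_of_nonneg hρ0]
          have := norm_nonneg y
          nlinarith
        · rw [ph_zero (by linarith)]; simp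
    _ = κ * m * R := by rw [integral_mul_const, ph_int, one_mul]

/-- the main local estimate -/
lemma Me_diff {C : ℝ} (hC : 0 < C) (hker : ∀ (a : E n) (q : ℝ), ‖a‖ ≤ 1 → 1 / 2 ≤ q → q ≤ 2 →
    ∫ y, |q ^ n * ph n (q • (y + a)) - ph n y| ≤ C * (‖a‖ + |q - 1|))
    {F : E n → E n} (hF : Base F) {ε κ H : ℝ} (hκ : 0 < κ) (hκC : κ * C ≤ 1/10)
    (hε : 0 < ε) (hε' : ε ≤ 1/4)
    {x : E n} (hx : ‖x‖ < 1) {L : E n →L[ℝ] E n} {m : ℝ} (hL : Loc κ H (ε * (1 - ‖x‖)) F x L m)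
    {v : E n} (hv : ‖v‖ ≤ ε * (1 - ‖x‖) / 16) :
    ‖Me F (ε/4) (x + v) - Me F (ε/4) x - L v‖ ≤ m / 2 * ‖v‖ := by
  set R := ε * (1 - ‖x‖) with hR
  have hRpos : 0 < R := mul_pos hε (by linarith)
  have hRle : R ≤ (1 - ‖x‖) / 4 := by rw [hR]; nlinarith [norm_nonneg x]
  obtain ⟨h1, h2⟩ := sc4 hε hx
  rw [← hR] at h1 h2
  have hxv : ‖x + v‖ < 1 := by
    have := norm_add_le x v
    linarith
  have hvn := norm_nonneg v
  set ρ := sc (ε/4) x with hρ
  set ρ' := sc (ε/4) (x + v) with hρ'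
  have hdiff : |ρ' - ρ| ≤ ‖v‖ / 8 := by
    have := sc_lip (ε := ε/4) (by linarith) hx.le hxv.le
    have e1 : x + v - x = v := by abel
    rw [e1] at this
    nlinarith
  have hd := abs_le.1 hdiff
  have hρ0 : 0 < ρ := by linarith
  have hρ'0 : 0 < ρ' := by linarith
  have hxρ : ‖x‖ + ρ ≤ 1 := norm_add_sc (by linarith) (by linarith) hx.le
  have hxρ' : ‖x + v‖ + ρ' ≤ 1 := norm_add_sc (by linarith) (by linarith) hxv.le
  set W : E n → E n := fun z => F z - F x - L (z - x) with hW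
  -- expression through W
  have e : Me F (ε/4) (x + v) - Me F (ε/4) x - L v =
      (∫ y, ph n y • W (x + v - ρ' • y)) - ∫ y, ph n y • W (x - ρ • y) := by
    have i1 := int_shift hF hρ0.le hxρ
    have i1' := int_shift hF hρ'0.le hxρ'
    have i2 : Integrable (fun y => ph n y • F x) := ph_integrable.smul_const _
    have i3 : Integrable (fun y => ph n y • L (x - ρ • y - x)) := int_of_cont (by fun_prop)
    have i3' : Integrable (fun y => ph n y • L (x + v - ρ' • y - x)) := int_of_cont (by fun_prop)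
    have i4 : Integrable (fun y => ph n y • F (x - ρ • y) - ph n y • F x) := i1.sub i2
    have i4' : Integrable (fun y => ph n y • F (x + v - ρ' • y) - ph n y • F x) := i1'.sub i2
    have a1 : (∫ y, ph n y • W (x - ρ • y)) = Me F (ε/4) x - F x := by
      simp only [hW, smul_sub]
      rw [integral_sub i4 i3, integral_sub i1 i2, integral_smul_const, ph_int, one_smul]
      have : (fun y => ph n y • L (x - ρ • y - x)) = fun y => (-ρ) • (ph n y • L y) := by
        funext y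
        have e1 : x - ρ • y - x = (-ρ) • y := by rw [neg_smul]; abel
        rw [e1, map_smul, smul_comm]
      rw [this, integral_smul, int_ph_odd, smul_zero, sub_zero]
      rfl
    have a2 : (∫ y, ph n y • W (x + v - ρ' • y)) = Me F (ε/4) (x + v) - F x - L v := by
      simp only [hW, smul_sub]
      rw [integral_sub i4' i3', integral_sub i1' i2, integral_smul_const, ph_int, one_smul]
      have : (fun y => ph n y • L (x + v - ρ' • y - x)) =
          fun y => ph n y • L v + (-ρ') • (ph n y • L y) := by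
        funext y
        have e1 : x + v - ρ' • y - x = v + (-ρ') • y := by rw [neg_smul]; abel
        rw [e1, map_add, map_smul, smul_add, smul_comm (ph n y) (-ρ')]
      rw [this, integral_add, integral_smul, int_ph_odd, smul_zero, add_zero, integral_smul_const,
        ph_int, one_smul]
      · rfl
      · exact ph_integrable.smul_const _
      · have i5 : Integrable (fun y => ph n y • L y) := int_of_cont (by fun_prop)
        exact i5.smul (-ρ')
    rw [a1, a2]; abel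
  rw [e, change_var W hρ0 hρ'0 x v]
  set q := ρ / ρ' with hq
  set a := ρ⁻¹ • v with ha
  have hqlo : 1/2 ≤ q := by
    rw [hq, le_div_iff₀ hρ'0]; linarith
  have hqhi : q ≤ 2 := by
    rw [hq, div_le_iff₀ hρ'0]; linarith
  have hq1 : |q - 1| ≤ ‖v‖ / R := by
    have e2 : q - 1 = (ρ - ρ') / ρ' := by rw [hq]; field_simp
    rw [e2, abs_div, abs_of_pos hρ'0, div_le_div_iff₀ hρ'0 hRpos]
    have h3 : |ρ - ρ'| ≤ ‖v‖ / 8 := by rw [abs_sub_comm]; exact hdiff
    have h4 : R / 8 ≤ ρ' := by linarith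
    calc |ρ - ρ'| * R ≤ ‖v‖ / 8 * R := by gcongr
      _ = ‖v‖ * (R / 8) := by ring
      _ ≤ ‖v‖ * ρ' := by gcongr
  have han : ‖a‖ ≤ 4 * (‖v‖ / R) := by
    rw [ha, norm_smul, norm_inv, Real.norm_of_nonneg hρ0.le]
    rw [inv_mul_eq_div, ← mul_div_assoc, div_le_div_iff₀ hρ0 hRpos]
    nlinarith
  have han1 : ‖a‖ ≤ 1 := by
    refine han.trans ?_
    rw [← mul_div_assoc, div_le_one hRpos]
    linarith
  have hκm : 0 ≤ κ * m * R := by have := hL.mpos; positivity
  -- integrability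
  have hWc : ContinuousOn W (closedBall 0 1) := by
    simp only [hW]
    exact (hF.cont.sub continuousOn_const).sub (by fun_prop)
  have j1 : Integrable (fun y => ph n y • W (x - ρ • y)) := by
    refine int_of_cont (hWc.comp (by fun_prop) ?_)
    intro y hy
    exact mem_cb hρ0.le hxρ (by simpa using hy)
  have j2 : Integrable (fun y => (q ^ n * ph n (q • (y + a))) • W (x - ρ • y)) := by
    -- change of variables in the other direction
    have hg : Integrable (fun y => ph n y • W (x + v - ρ' • y)) := by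
      refine int_of_cont (hWc.comp (by fun_prop) ?_)
      intro y hy
      exact mem_cb hρ'0.le hxρ' (by simpa using hy)
    have hqpos : 0 < q := by linarith
    have h6 : Integrable (fun y => ph n (q • y) • W (x + v - ρ' • (q • y))) :=
      (integrable_comp_smul_iff (volume : Measure (E n))
        (fun y => ph n y • W (x + v - ρ' • y)) hqpos.ne').2 hg
    have h7 := h6.comp_add_right a
    have h8 := h7.smul (q ^ n)
    refine h8.congr (Eventually.of_forall fun y => ?_)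
    simp only [Pi.smul_apply, smul_smul]
    congr 2
    have e1 : ρ' * q = ρ := by rw [hq]; field_simp
    rw [e1, smul_add, ha, smul_smul, mul_inv_cancel₀ hρ0.ne', one_smul]
    abel
  rw [← integral_sub j2 j1]
  have e3 : (fun y => (q ^ n * ph n (q • (y + a))) • W (x - ρ • y) - ph n y • W (x - ρ • y)) =
      fun y => (q ^ n * ph n (q • (y + a)) - ph n y) • W (x - ρ • y) := by
    funext y; rw [sub_smul]
  rw [e3]
  have hint : Integrable (fun y => |q ^ n * ph n (q • (y + a)) - ph n y|) := by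
    have hqpos : 0 < q := by linarith
    have h6 : Integrable (fun y => ph n (q • y)) :=
      (integrable_comp_smul_iff (volume : Measure (E n)) (fun y => ph n y) hqpos.ne').2 ph_integrable
    have h7 := (h6.comp_add_right a).const_mul (q ^ n)
    exact (h7.sub ph_integrable).abs
  calc ‖∫ y, (q ^ n * ph n (q • (y + a)) - ph n y) • W (x - ρ • y)‖
      ≤ ∫ y, |q ^ n * ph n (q • (y + a)) - ph n y| * (κ * m * R) := by
        refine norm_integral_le_of_norm_le (hint.mul_const _) ?_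
        refine Eventually.of_forall fun y => ?_
        rw [norm_smul, Real.norm_eq_abs]
        by_cases hz : q ^ n * ph n (q • (y + a)) - ph n y = 0
        · rw [hz]; simp
        · refine mul_le_mul_of_nonneg_left ?_ (abs_nonneg _)
          -- the point is close to x
          have hclose : ‖x - ρ • y‖ ≤ 1 ∧ ‖x - ρ • y - x‖ ≤ R := by
            have e4 : x - ρ • y - x = -(ρ • y) := by abel
            by_cases hy : ‖y‖ < 1
            · refine ⟨mem_closedBall_zero_iff.1 (mem_cb hρ0.le hxρ hy.le), ?_⟩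
              rw [e4, norm_neg, norm_smul, Real.norm_of_nonneg hρ0.le]
              have := norm_nonneg y
              nlinarith
            · have h9 : ph n y = 0 := ph_zero (by linarith)
              have h10 : ‖q • (y + a)‖ < 1 := by
                by_contra hcon
                have : ph n (q • (y + a)) = 0 := ph_zero (by linarith)
                rw [h9, this] at hz
                simp at hz
              have e5 : x - ρ • y = x + v - ρ' • (q • (y + a)) := by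
                have e1 : ρ' * q = ρ := by rw [hq]; field_simp
                rw [smul_smul, e1, smul_add, ha, smul_smul, mul_inv_cancel₀ hρ0.ne', one_smul]
                abel
              refine ⟨?_, ?_⟩
              · rw [e5]
                exact mem_closedBall_zero_iff.1 (mem_cb hρ'0.le hxρ' h10.le)
              · rw [e5]
                have e6 : x + v - ρ' • (q • (y + a)) - x = v - ρ' • (q • (y + a)) := by abel
                rw [e6]
                refine (norm_sub_le _ _).trans ?_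
                rw [norm_smul, Real.norm_of_nonneg hρ'0.le]
                nlinarith [norm_nonneg (q • (y + a))]
          exact hL.near _ hclose.1 hclose.2
    _ = (∫ y, |q ^ n * ph n (q • (y + a)) - ph n y|) * (κ * m * R) := by rw [integral_mul_const]
    _ ≤ (C * (‖a‖ + |q - 1|)) * (κ * m * R) := by
        exact mul_le_mul_of_nonneg_right (hker a q han1 hqlo hqhi) hκm
    _ ≤ (C * (4 * (‖v‖ / R) + ‖v‖ / R)) * (κ * m * R) := by gcongr
    _ = 5 * (κ * C) * m * ‖v‖ := by field_simp; ring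
    _ ≤ 5 * (1/10) * m * ‖v‖ := by have := hL.mpos; gcongr
    _ = m / 2 * ‖v‖ := by ring

lemma loc_of {κ H : ℝ} {f : closedBall (0 : E n) 1 ≃ₜ closedBall (0 : E n) 1} {ε : ℝ}
    (h : ∀ x : closedBall (0 : E n) 1, ‖(x : E n)‖ < 1 → ∃ (L : E n →L[ℝ] E n) (m : ℝ),
      0 < m ∧ 0 < L.det ∧ ‖L‖ ≤ H * m ∧ (∀ v, m * ‖v‖ ≤ ‖L v‖) ∧
      ∀ y : closedBall (0 : E n) 1, ‖(y : E n) - x‖ ≤ ε * (1 - ‖(x : E n)‖) →
        ‖(f y : E n) - f x - L ((y : E n) - x)‖ ≤ κ * m * (ε * (1 - ‖(x : E n)‖)))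
    {x : E n} (hx : ‖x‖ < 1) : ∃ L m, Loc κ H (ε * (1 - ‖x‖)) (ext f) x L m := by
  have hxc : x ∈ closedBall (0 : E n) 1 := by simp [hx.le]
  obtain ⟨L, m, h1, h2, h3, h4, h5⟩ := h ⟨x, hxc⟩ hx
  refine ⟨L, m, h1, h2, h3, h4, ?_⟩
  intro z hz hzx
  have hzc : z ∈ closedBall (0 : E n) 1 := by simp [hz]
  rw [ext_mem f hxc, ext_mem f hzc]
  exact h5 ⟨z, hzc⟩ hzx

theorem naf_base {C : ℝ} (hC : 0 < C)
    (hker : ∀ (a : E n) (q : ℝ), ‖a‖ ≤ 1 → 1 / 2 ≤ q → q ≤ 2 →
      ∫ y, |q ^ n * ph n (q • (y + a)) - ph n y| ≤ C * (‖a‖ + |q - 1|))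
    (hD : DetBStmt) {κ H : ℝ} (hκ : 0 < κ) (hκ1 : κ ≤ 1/64) (hκ2 : κ * C ≤ 1/10)
    {F : E n → E n} (hF : Base F)
    (hTF : ∀ (x x' : E n) (r l : ℝ), ‖x‖ < 1 → ‖x'‖ < 1 → 0 < r → ‖x‖ + r < 1 →
      (∀ y : E n, ‖y‖ ≤ 1 → ‖y - x‖ = r → l ≤ ‖F y - F x‖) → r ≤ ‖x' - x‖ → l ≤ ‖F x' - F x‖)
    {ε₀ η : ℝ} (hcl : ∀ ρ, 0 ≤ ρ → ρ < ε₀ → ∀ x : E n, ‖x‖ + ρ ≤ 1 → ‖M F ρ x - F x‖ ≤ η)
    {ε : ℝ} (hε : 0 < ε) (hε4 : ε ≤ 1/4) (hεlt : ε < ε₀)
    (hLoc : ∀ x : E n, ‖x‖ < 1 → ∃ L m, Loc κ H (ε * (1 - ‖x‖)) F x L m) :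
    ∃ g : E n → E n, QCDiffeo ((2 * H + 1) ^ n) g ∧ ∀ x : E n, ‖x‖ < 1 → ‖g x - F x‖ ≤ η := by
  -- local estimate
  have hdiff : ∀ (x : E n), ‖x‖ < 1 → ∀ (L : E n →L[ℝ] E n) (m : ℝ),
      Loc κ H (ε * (1 - ‖x‖)) F x L m → ∀ v : E n, ‖v‖ ≤ ε * (1 - ‖x‖) / 16 →
      ‖Me F (ε/4) (x + v) - Me F (ε/4) x - L v‖ ≤ m / 2 * ‖v‖ :=
    fun x hx L m hL v hv => Me_diff hC hker hF hκ hκ2 hε hε4 hx hL hv
  -- derivative
  have hder : ∀ (x : E n), ‖x‖ < 1 → ∀ (L : E n →L[ℝ] E n) (m : ℝ),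
      Loc κ H (ε * (1 - ‖x‖)) F x L m →
      ∀ v, ‖fderiv ℝ (Me F (ε/4)) x v - L v‖ ≤ m / 2 * ‖v‖ := by
    intro x hx L m hL v
    have hxb : ball (0 : E n) 1 ∈ 𝓝 x := isOpen_ball.mem_nhds (by simpa using hx)
    have hd : DifferentiableAt ℝ (Me F (ε/4)) x :=
      ((Me_smooth hF (by linarith) (by linarith)).contDiffAt hxb).differentiableAt (by simp)
    have hl := (hd.hasFDerivAt.hasLineDerivAt v)
    have hl' : Tendsto (fun t : ℝ => t⁻¹ • (Me F (ε/4) (x + t • v) - Me F (ε/4) x))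
        (𝓝[>] 0) (𝓝 (fderiv ℝ (Me F (ε/4)) x v)) := hl.tendsto_slope_zero_right
    have hl2 := (hl'.sub_const (L v)).norm
    refine le_of_tendsto hl2 ?_
    have hRpos : 0 < ε * (1 - ‖x‖) / 16 := by
      have : 0 < 1 - ‖x‖ := by linarith
      positivity
    have ev : ∀ᶠ t : ℝ in 𝓝[>] 0, ‖t • v‖ ≤ ε * (1 - ‖x‖) / 16 ∧ 0 < t := by
      refine Filter.Eventually.and ?_ self_mem_nhdsWithin
      have hc : ContinuousAt (fun t : ℝ => ‖t • v‖) 0 := by fun_prop
      have : ∀ᶠ t : ℝ in 𝓝 0, ‖t • v‖ < ε * (1 - ‖x‖) / 16 := by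
        apply hc.eventually_lt continuousAt_const
        simpa using hRpos
      filter_upwards [nhdsWithin_le_nhds this] with t ht
      exact ht.le
    filter_upwards [ev] with t ht
    have h4 := hdiff x hx L m hL (t • v) ht.1
    have ht2 := ht.2
    have e1 : t⁻¹ • (Me F (ε/4) (x + t • v) - Me F (ε/4) x) - L v =
        t⁻¹ • (Me F (ε/4) (x + t • v) - Me F (ε/4) x - L (t • v)) := by
      rw [smul_sub t⁻¹ (_ - _) (L (t • v)), map_smul, smul_smul, inv_mul_cancel₀ ht2.ne', one_smul]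
    rw [e1, norm_smul, Real.norm_of_nonneg (inv_nonneg.2 ht2.le)]
    calc t⁻¹ * ‖Me F (ε/4) (x + t • v) - Me F (ε/4) x - L (t • v)‖
        ≤ t⁻¹ * (m / 2 * ‖t • v‖) := by gcongr
      _ = m / 2 * ‖v‖ := by
          rw [norm_smul, Real.norm_of_nonneg ht2.le]; field_simp
  have hdet : ∀ (x : E n), ‖x‖ < 1 → (∀ v, fderiv ℝ (Me F (ε/4)) x v = 0 → v = 0) ∧
      0 < (fderiv ℝ (Me F (ε/4)) x).det ∧
      ‖fderiv ℝ (Me F (ε/4)) x‖ ^ n ≤ (2 * H + 1) ^ n * (fderiv ℝ (Me F (ε/4)) x).det := by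
    intro x hx
    obtain ⟨L, m, hL⟩ := hLoc x hx
    exact hD n H L _ m hL.mpos hL.det hL.norm hL.low (hder x hx L m hL)
  -- lower bound for F
  have hlow : ∀ (x x' : E n), ‖x‖ < 1 → ‖x'‖ < 1 → ε * (1 - ‖x‖) / 16 < ‖x' - x‖ → ∀ L m,
      Loc κ H (ε * (1 - ‖x‖)) F x L m →
      m * (ε * (1 - ‖x‖)) * (3/64) ≤ ‖F x' - F x‖ := by
    intro x x' hx hx' hfar L m hL
    set R := ε * (1 - ‖x‖) with hR
    have hRpos : 0 < R := mul_pos hε (by linarith)
    have hRle : R ≤ (1 - ‖x‖) / 4 := by rw [hR]; nlinarith [norm_nonneg x]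
    refine hTF x x' (R/16) (m * R * (3/64)) hx hx' (by linarith) (by linarith) ?_ hfar.le
    intro y hyn hy
    have h5 := hL.near y hyn (by rw [hy]; linarith)
    have h6 := hL.low (y - x)
    rw [hy] at h6
    have h7 : ‖L (y - x)‖ ≤ ‖F y - F x‖ + ‖F y - F x - L (y - x)‖ := by
      have e1 : L (y - x) = (F y - F x) - (F y - F x - L (y - x)) := by abel
      conv_lhs => rw [e1]
      exact norm_sub_le _ _
    have hm := hL.mpos
    have h8 : κ * m * R ≤ 1/64 * m * R := by gcongr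
    linarith
  have hinj : InjOn (Me F (ε/4)) (ball 0 1) := by
    intro x hx x' hx' he
    by_contra hne
    have hxn : ‖x‖ < 1 := by simpa using hx
    have hxn' : ‖x'‖ < 1 := by simpa using hx'
    have hpos : 0 < ‖x' - x‖ := norm_pos_iff.2 (sub_ne_zero.2 (Ne.symm hne))
    obtain ⟨L, m, hL⟩ := hLoc x hxn
    obtain ⟨L', m', hL'⟩ := hLoc x' hxn'
    have hm := hL.mpos
    have hm' := hL'.mpos
    by_cases c1 : ‖x' - x‖ ≤ ε * (1 - ‖x‖) / 16
    · have h4 := hdiff x hxn L m hL (x' - x) c1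
      have e1 : x + (x' - x) = x' := by abel
      rw [e1, he, sub_self, zero_sub, norm_neg] at h4
      have h5 := hL.low (x' - x)
      nlinarith
    · by_cases c2 : ‖x' - x‖ ≤ ε * (1 - ‖x'‖) / 16
      · have h6 : ‖x - x'‖ = ‖x' - x‖ := norm_sub_rev _ _
        have h4 := hdiff x' hxn' L' m' hL' (x - x') (by rw [h6]; exact c2)
        have e1 : x' + (x - x') = x := by abel
        rw [e1, he, sub_self, zero_sub, norm_neg, h6] at h4
        have h7 := hL'.low (x - x')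
        rw [h6] at h7
        nlinarith
      · have c1' : ε * (1 - ‖x‖) / 16 < ‖x' - x‖ := not_le.1 c1
        have c2' : ε * (1 - ‖x'‖) / 16 < ‖x - x'‖ := by rw [norm_sub_rev]; exact not_le.1 c2
        have l1 := hlow x x' hxn hxn' c1' L m hL
        have l2 := hlow x' x hxn' hxn c2' L' m' hL'
        have n1 := Me_near hF hκ hε hε4 hxn hL
        have n2 := Me_near hF hκ hε hε4 hxn' hL'
        have hfd : ‖F x' - F x‖ ≤ κ * m * (ε * (1 - ‖x‖)) + κ * m' * (ε * (1 - ‖x'‖)) := by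
          have e1 : F x' - F x = (Me F (ε/4) x - F x) - (Me F (ε/4) x' - F x') := by rw [he]; abel
          rw [e1]
          exact (norm_sub_le _ _).trans (by linarith)
        rw [norm_sub_rev (F x) (F x')] at l2
        have p1 : 0 < m * (ε * (1 - ‖x‖)) := by
          have : 0 < 1 - ‖x‖ := by linarith
          positivity
        have p2 : 0 < m' * (ε * (1 - ‖x'‖)) := by
          have : 0 < 1 - ‖x'‖ := by linarith
          positivity
        have k1 : κ * m * (ε * (1 - ‖x‖)) ≤ 1/64 * (m * (ε * (1 - ‖x‖))) := by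
          rw [mul_assoc]; gcongr
        have k2 : κ * m' * (ε * (1 - ‖x'‖)) ≤ 1/64 * (m' * (ε * (1 - ‖x'‖))) := by
          rw [mul_assoc]; gcongr
        linarith
  refine ⟨Me F (ε/4), Me_qc0 hF (by linarith) (by linarith) hinj
    (fun x hx => (hdet x hx).1) (fun x hx => (hdet x hx).2), ?_⟩
  intro x hxn
  have hsc : sc (ε/4) x < ε₀ := by
    unfold sc
    have := sq_nonneg ‖x‖
    nlinarith
  exact hcl (sc (ε/4) x) (sc_nonneg (by linarith) hxn.le) hsc x
    (norm_add_sc (by linarith) (by linarith) hxn.le)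

lemma top_ext (hT : TopStmt) (f : closedBall (0 : E n) 1 ≃ₜ closedBall (0 : E n) 1)
    (x x' : E n) (r l : ℝ) (hx : ‖x‖ < 1) (hx' : ‖x'‖ < 1) (hr : 0 < r) (hxr : ‖x‖ + r < 1)
    (h : ∀ y : E n, ‖y‖ ≤ 1 → ‖y - x‖ = r → l ≤ ‖ext f y - ext f x‖) (hfar : r ≤ ‖x' - x‖) :
    l ≤ ‖ext f x' - ext f x‖ := by
  have hxc : x ∈ closedBall (0 : E n) 1 := by simp [hx.le]
  have hxc' : x' ∈ closedBall (0 : E n) 1 := by simp [hx'.le]
  have h1 := hT n f ⟨x, hxc⟩ r l hr hxr (fun y hy => by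
    have hyn : ‖(y : E n)‖ ≤ 1 := mem_closedBall_zero_iff.1 y.2
    have h2 := h y hyn hy
    rw [ext_mem f hxc, ext_mem f y.2] at h2
    exact h2) ⟨x', hxc'⟩ hfar
  rw [ext_mem f hxc, ext_mem f hxc']
  exact h1

theorem naf_fixed (hT : TopStmt) (hD : DetBStmt) {C : ℝ} (hC : 0 < C)
    (hker : ∀ (a : E n) (q : ℝ), ‖a‖ ≤ 1 → 1 / 2 ≤ q → q ≤ 2 →
      ∫ y, |q ^ n * ph n (q • (y + a)) - ph n y| ≤ C * (‖a‖ + |q - 1|))
    {κ : ℝ} (hκ : 0 < κ) (hκ1 : κ ≤ 1/64) (hκ2 : κ * C ≤ 1/10) (H : ℝ)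
    (f : closedBall (0 : E n) 1 ≃ₜ closedBall (0 : E n) 1)
    (hf : NearAffine κ H f) : Approx ((2 * H + 1) ^ n) f := by
  intro η hη
  have hF : Base (ext f) := base_ext f hf.1
  obtain ⟨ε₀, hε₀, hcl⟩ := close hF η hη
  obtain ⟨ε₁, h1, h2, h3⟩ : ∃ ε₁ : ℝ, 0 < ε₁ ∧ ε₁ ≤ ε₀ ∧ ε₁ ≤ 1/4 :=
    ⟨min ε₀ (1/4), lt_min hε₀ (by norm_num), min_le_left _ _, min_le_right _ _⟩
  obtain ⟨ε, hε, hεlt, hloc0⟩ := hf.2 ε₁ h1
  have hloc : ∀ x : closedBall (0 : E n) 1, ‖(x : E n)‖ < 1 → ∃ (L : E n →L[ℝ] E n) (m : ℝ),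
      0 < m ∧ 0 < L.det ∧ ‖L‖ ≤ H * m ∧ (∀ v, m * ‖v‖ ≤ ‖L v‖) ∧
      ∀ y : closedBall (0 : E n) 1, ‖(y : E n) - x‖ ≤ ε * (1 - ‖(x : E n)‖) →
        ‖(f y : E n) - f x - L ((y : E n) - x)‖ ≤ κ * m * (ε * (1 - ‖(x : E n)‖)) := by
    intro x hx
    obtain ⟨L, m, ⟨a1, a2, a3, a4⟩, a5⟩ := hloc0 x hx
    exact ⟨L, m, a1, a2, a3, a4, a5⟩
  obtain ⟨g, hg, hgx⟩ := naf_base hC hker hD hκ hκ1 hκ2 hF (top_ext hT f) hcl hε (by linarith)
    (by linarith) (fun x hx => loc_of (f := f) hloc hx)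
  refine ⟨g, hg, fun x hx => ?_⟩
  have h1 := hgx x (mem_ball_zero_iff.1 hx)
  rw [ext_mem f x.2] at h1
  exact h1

theorem naf (hK : KerStmt) (hT : TopStmt) (hD : DetBStmt) (n : ℕ) : ∃ κ : ℝ, 0 < κ ∧
    ∀ H : ℝ, ∃ K : ℝ, ∀ f : closedBall (0 : E n) 1 ≃ₜ closedBall (0 : E n) 1,
      NearAffine κ H f → Approx K f := by
  obtain ⟨C, hC, hker⟩ := hK n
  obtain ⟨κ, hκ, hκ1, hκ2⟩ : ∃ κ : ℝ, 0 < κ ∧ κ ≤ 1/64 ∧ κ * C ≤ 1/10 := by
    refine ⟨min (1/64) (1 / (10 * C)), lt_min (by norm_num) (by positivity), min_le_left _ _, ?_⟩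
    calc min (1/64) (1 / (10 * C)) * C ≤ 1 / (10 * C) * C := by
          gcongr; exact min_le_right _ _
      _ = 1/10 := by field_simp
  exact ⟨κ, hκ, fun H => ⟨(2 * H + 1) ^ n, naf_fixed hT hD hC hker hκ hκ1 hκ2 H⟩⟩

end Helper22QC
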