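import Pool.Agent.Helper22_QC.Defs

/-! Statements of the modules. -/

namespace Helper22QC

open Metric Set Filter Topology

/-- Module LIN1: a linear map which is injective and `δ`-monotone is quasiconformal. -/
def LinMonoStmt : Prop :=
  ∀ (n : ℕ), 1 ≤ n → ∀ δ : ℝ, 0 < δ → δ ≤ 1 → ∃ K : ℝ, 1 ≤ K ∧ ∀ L : E n →L[ℝ] E n,
    (∀ h, δ * (‖L h‖ * ‖h‖) ≤ inner ℝ (L h) h) → (∀ h, L h = 0 → h = 0) →
      0 < L.det ∧ ‖L‖ ^ n ≤ K * L.det

/-- Module LIN2: a monotone linear map with non-trivial kernel is zero. -/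
def LinKerStmt : Prop :=
  ∀ (n : ℕ) (δ : ℝ), 0 < δ → ∀ L : E n →L[ℝ] E n,
    (∀ h, δ * (‖L h‖ * ‖h‖) ≤ inner ℝ (L h) h) → ∀ h, h ≠ 0 → L h = 0 → L = 0

/-- Module LIN3: composition of quasiconformal diffeomorphisms. -/
def CompStmt : Prop :=
  ∀ (n : ℕ) (K K' : ℝ) (g g' : E n → E n), QCDiffeo K g → QCDiffeo K' g' →
    QCDiffeo (K * K') (g ∘ g')

/-- Module LIN4: inverse of a quasiconformal diffeomorphism. -/
def InvStmt : Prop :=
  ∀ (n : ℕ) (K : ℝ), ∃ K' : ℝ, ∀ (g : E n → E n), QCDiffeo K g →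
    QCDiffeo K' (Function.invFunOn g (ball 0 1))

/-- Module GRP: the class of homeomorphisms with approximations is closed under composition
and inversion. -/
def GroupStmt : Prop :=
  ∀ (n : ℕ), ∃ G : Subgroup (closedBall (0 : E n) 1 ≃ₜ closedBall (0 : E n) 1),
    ∀ f, f ∈ G ↔ ∃ K : ℝ, Approx K f

/-- Module MOL: main theorem for monotone homeomorphisms. -/
def MonoStmt : Prop :=
  ∀ (n : ℕ), 2 ≤ n → ∀ δ : ℝ, 0 < δ → ∃ K : ℝ,
    ∀ f : closedBall (0 : E n) 1 ≃ₜ closedBall (0 : E n) 1, Mono δ f → Approx K f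

end Helper22QC
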